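import Pool.Agent.Helper49.UM.Star

/-!
PROJECT UM, module UM-Lvl: the recursion over the levels and the cost.

PLAN.  Adapt `Pool/Agent/Helper8/OT/Cost.lean` (`cost_bound`) and
`Pool/Agent/Helper8/OT/TreeCost.lean` (`delta_le`, `sum_delta_le`, `sum_if_le`, `excess_le`,
`tree_cost`; copy the private lemmas).  Put `z k = ∑_{v ∈ clusters k} max 0 (ld u v - A v)`,
`Φ k = ∑_{v ∈ clusters k} fl v`, `O k = ∑_{v ∈ clusters k} ou v`, all at time `n`.
(a) `ou v ≤ max 0 (ld u v - A v) + max 0 (fl v - ∑ i ∈ v, (c i - a i))`: clear if `ou v = 0`,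
otherwise `ok_full` and `ld_add_ou`.
(b) `O k ≤ z k + B * (z k + Φ (k+1)) ≤ H * (z k + Φ (k+1))` (sum `hB` over the `P ∈ clusters (k+1)`,
`sum_clusters`), and `Φ k ≤ O k + Φ (k+1) ≤ H * (z k + Φ (k+1))` (`sum_fl_le`), `H = 1 + B`.
(In (b) for `Φ`: `O k + Φ (k+1) ≤ z k + B (z k + Φ (k+1)) + Φ (k+1) = (1 + B)(z k + Φ (k+1))`.)
(c) `Φ K = 0` (`clusters_top`, `fl univ = 0`).
(d) as in `cost_bound`: `∑_{k<K} δ (k+1) Φ (k+1) ≤ ∑_{k<K} δ (k+1) z k`, hence
`∑_{k<K} δ (k+1) O k ≤ 2 H ∑_{k<K} δ (k+1) z k`.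
(e) `O k = #{r < n : k < lev (u r) (s r)}` (each `r` with `k < lev (u r) (s r)` is counted exactly
once, in the cluster `cl lev k (u r)`), `z k ≤ #{r < n : k < lev (u r) (σ r)}` (`excess_le`).
(f) `δ l ≤ ∑_{k<l} δ (k+1)` and `∑_{k<l} δ (k+1) ≤ 2 δ l` (`2 ≤ 2H`).
-/

namespace Pool.Agent.Helper49.UM

open Finset Pool.Agent.Helper8.OT

variable {V : Type} [Fintype V] [DecidableEq V]

private theorem delta_le (δ : ℕ → ℝ) (hδz : δ 0 = 0) (hδ0 : ∀ k, 0 ≤ δ k) (K l : ℕ) (hl : l ≤ K) :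
    δ l ≤ ∑ k ∈ range K, if k < l then δ (k + 1) else 0 := by
  have h0 : ∀ k ∈ range K, 0 ≤ (if k < l then δ (k + 1) else 0) := by
    intro k _
    split_ifs
    · exact hδ0 _
    · exact le_rfl
  rcases Nat.eq_zero_or_pos l with h | h
  · rw [h, hδz]
    rw [h] at h0
    exact sum_nonneg h0
  · obtain ⟨m, rfl⟩ := Nat.exists_eq_succ_of_ne_zero h.ne'
    have h1 := single_le_sum h0 (mem_range.mpr (show m < K by omega))
    rw [if_pos (Nat.lt_succ_self m)] at h1
    exact h1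

private theorem sum_delta_le (δ : ℕ → ℝ) (hδz : δ 0 = 0) (hδ0 : ∀ k, 0 ≤ δ k)
    (hδ : ∀ k, 1 ≤ k → 2 * δ k ≤ δ (k + 1)) (l : ℕ) :
    ∑ k ∈ range l, δ (k + 1) ≤ 2 * δ l := by
  induction l with
  | zero =>
    rw [sum_range_zero, hδz, mul_zero]
  | succ l ih =>
    rw [sum_range_succ]
    have h : 2 * δ l ≤ δ (l + 1) := by
      rcases Nat.eq_zero_or_pos l with h | h
      · rw [h, hδz, mul_zero]
        exact hδ0 _
      · exact hδ l h
    linarith

private theorem sum_if_le (δ : ℕ → ℝ) (hδz : δ 0 = 0) (hδ0 : ∀ k, 0 ≤ δ k)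
    (hδ : ∀ k, 1 ≤ k → 2 * δ k ≤ δ (k + 1)) (K l : ℕ) (hl : l ≤ K) :
    ∑ k ∈ range K, (if k < l then δ (k + 1) else 0) ≤ 2 * δ l := by
  have h : ∑ k ∈ range K, (if k < l then δ (k + 1) else 0) = ∑ k ∈ range l, δ (k + 1) := by
    rw [← sum_filter]
    refine sum_congr ?_ (fun _ _ => rfl)
    ext k
    rw [mem_filter, mem_range, mem_range]
    omega
  rw [h]
  exact sum_delta_le δ hδz hδ0 hδ l

/-- exactly one cluster contains `x`, and it contains `y` iff the level is at most `k` -/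
private theorem sum_pair {lev : V → V → ℕ} (hlev : IsUlt lev) (k : ℕ) (x y : V) :
    ∑ v ∈ clusters lev k, (if x ∈ v ∧ y ∉ v then (1 : ℝ) else 0) = if k < lev x y then 1 else 0 := by
  rw [sum_eq_single (cl lev k x)]
  · have h1 : (x ∈ cl lev k x ∧ y ∉ cl lev k x) ↔ k < lev x y := by
      rw [mem_cl (i := x) (j := y)]
      exact ⟨fun h => not_le.1 h.2, fun h => ⟨self_mem_cl hlev k x, not_le.2 h⟩⟩
    exact if_congr h1 rfl rfl
  · intro v hv hne
    refine if_neg fun h => hne (mem_clusters hlev hv h.1)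
  · intro h
    exact absurd (cl_mem_clusters lev k x) h

private theorem sum_lev (δ : ℕ → ℝ) (K n : ℕ) (f : ℕ → ℕ) :
    ∑ k ∈ range K, δ (k + 1) * ∑ t ∈ range n, (if k < f t then (1 : ℝ) else 0) =
      ∑ t ∈ range n, ∑ k ∈ range K, if k < f t then δ (k + 1) else 0 := by
  simp only [mul_sum]
  rw [sum_comm]
  refine sum_congr rfl ?_
  intro t _
  refine sum_congr rfl ?_
  intro k _
  split_ifs
  · rw [mul_one]
  · rw [mul_zero]

private theorem sum_two {lev : V → V → ℕ} (hlev : IsUlt lev) (k n : ℕ) (u s : ℕ → V) :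
    ∑ v ∈ clusters lev k, (ou u s n v : ℝ) =
      ∑ t ∈ range n, if k < lev (u t) (s t) then 1 else 0 := by
  have h1 : ∀ v : Finset V, (ou u s n v : ℝ) =
      ∑ t ∈ range n, if u t ∈ v ∧ s t ∉ v then (1 : ℝ) else 0 := by
    intro v
    unfold ou
    rw [sum_boole]
  rw [sum_congr rfl fun v _ => h1 v, sum_comm]
  exact sum_congr rfl fun t _ => sum_pair hlev k (u t) (s t)

private theorem excess_le {lev : V → V → ℕ} (hlev : IsUlt lev) (a : V → ℕ) (u : ℕ → V) (n : ℕ)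
    (σ : ℕ → V) (hσ : ∀ i, ((range n).filter (fun t => σ t = i)).card ≤ a i) (k : ℕ) :
    ∑ v ∈ clusters lev k, max 0 ((ld u n v : ℝ) - ∑ i ∈ v, (a i : ℝ)) ≤
      ∑ t ∈ range n, if k < lev (u t) (σ t) then 1 else 0 := by
  rw [← sum_two hlev k n u σ]
  refine sum_le_sum fun v _ => max_le (Nat.cast_nonneg _) ?_
  have h1 : ld σ n v ≤ ∑ i ∈ v, a i := by
    rw [ld_sum]
    refine sum_le_sum fun i _ => ?_
    refine le_trans (le_of_eq ?_) (hσ i)
    unfold ld
    congr 1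
    refine filter_congr fun t _ => ?_
    rw [mem_singleton]
  have h2 := ld_add_ou u σ n v
  have h3 : ld u n v ≤ ld σ n v + ou u σ n v := by omega
  have h4 : (ld u n v : ℝ) ≤ ∑ i ∈ v, (a i : ℝ) + ou u σ n v := by
    have : ld u n v ≤ ∑ i ∈ v, a i + ou u σ n v := by omega
    exact_mod_cast this
  linarith

theorem cost [Nonempty V] {lev : V → V → ℕ} (hlev : IsUlt lev) (K : ℕ)
    (hK : ∀ i j, lev i j ≤ K) (δ : ℕ → ℝ) (hδz : δ 0 = 0) (hδ0 : ∀ k, 0 ≤ δ k) (B : ℝ)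
    (hB0 : 0 ≤ B) (hδ : ∀ k, 1 ≤ k → 2 * (1 + B) * δ k ≤ δ (k + 1))
    {a c ω : V → ℕ} (hac : ∀ i, a i ≤ c i) {u s : ℕ → V} {n : ℕ}
    (h : ∀ r < n, OK lev c ω u s r (s r))
    (hB : ∀ k, ∀ P ∈ clusters lev (k + 1),
      ∑ v ∈ children lev k P, max 0 ((fl u s n v : ℝ) - ∑ i ∈ v, ((c i : ℝ) - a i)) ≤
        B * (∑ v ∈ children lev k P, max 0 ((ld u n v : ℝ) - ∑ i ∈ v, (a i : ℝ)) + fl u s n P))
    (σ : ℕ → V) (hσ : ∀ i, ((range n).filter (fun t => σ t = i)).card ≤ a i) :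
    ∑ r ∈ range n, δ (lev (u r) (s r)) ≤ 4 * (1 + B) * ∑ r ∈ range n, δ (lev (u r) (σ r)) := by
  set z : ℕ → ℝ := fun k => ∑ v ∈ clusters lev k, max 0 ((ld u n v : ℝ) - ∑ i ∈ v, (a i : ℝ))
    with hz
  set FF : ℕ → ℝ := fun k => ∑ v ∈ clusters lev k, (fl u s n v : ℝ) with hFF
  set OO : ℕ → ℝ := fun k => ∑ v ∈ clusters lev k, (ou u s n v : ℝ) with hOO
  have hz0 : ∀ k, 0 ≤ z k := fun k => sum_nonneg fun v _ => le_max_left _ _
  have hFF0 : ∀ k, 0 ≤ FF k := fun k => sum_nonneg fun v _ => Nat.cast_nonneg _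
  have hO1 : ∀ k, OO k ≤ z k + B * (z k + FF (k + 1)) := by
    intro k
    have h1 : OO k ≤ z k +
        ∑ v ∈ clusters lev k, max 0 ((fl u s n v : ℝ) - ∑ i ∈ v, ((c i : ℝ) - a i)) := by
      simp only [hz, hOO]
      rw [← sum_add_distrib]
      refine sum_le_sum fun v hv => ?_
      rcases Nat.eq_zero_or_pos (ou u s n v) with h0 | h0
      · rw [h0, Nat.cast_zero]
        exact add_nonneg (le_max_left _ _) (le_max_left _ _)
      · have h2 := ok_full hlev h hv h0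
        have h3 := ld_add_ou u s n v
        have h4 : ((∑ i ∈ v, c i : ℕ) : ℝ) + ou u s n v = ld u n v + fl u s n v := by
          rw [← h2]
          exact_mod_cast h3
        rw [Nat.cast_sum] at h4
        have h5 := le_max_right (0 : ℝ) ((ld u n v : ℝ) - ∑ i ∈ v, (a i : ℝ))
        have h6 := le_max_right (0 : ℝ) ((fl u s n v : ℝ) - ∑ i ∈ v, ((c i : ℝ) - a i))
        rw [sum_sub_distrib] at h6 ⊢
        linarith
    have h2 : ∑ v ∈ clusters lev k, max 0 ((fl u s n v : ℝ) - ∑ i ∈ v, ((c i : ℝ) - a i)) ≤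
        B * (z k + FF (k + 1)) := by
      have h3 : z k + FF (k + 1) = ∑ P ∈ clusters lev (k + 1),
          (∑ v ∈ children lev k P, max 0 ((ld u n v : ℝ) - ∑ i ∈ v, (a i : ℝ)) +
            fl u s n P) := by
        rw [sum_add_distrib, sum_clusters hlev k]
      rw [h3, mul_sum, ← sum_clusters hlev k]
      exact sum_le_sum fun P hP => hB k P hP
    linarith
  have hF1 : ∀ k, FF k ≤ OO k + FF (k + 1) := by
    intro k
    have h1 : FF k = ∑ P ∈ clusters lev (k + 1), ∑ v ∈ children lev k P, (fl u s n v : ℝ) :=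
      (sum_clusters hlev k _).symm
    have h2 : OO k + FF (k + 1) = ∑ P ∈ clusters lev (k + 1),
        (∑ v ∈ children lev k P, (ou u s n v : ℝ) + fl u s n P) := by
      rw [sum_add_distrib, sum_clusters hlev k]
    rw [h1, h2]
    exact sum_le_sum fun P hP => sum_fl_le hlev u s n hP
  have hout : ∀ k, OO k ≤ (1 + B) * (z k + FF (k + 1)) := by
    intro k
    have h1 := hO1 k
    have h2 := hFF0 (k + 1)
    nlinarith
  have hFFle : ∀ k, FF k ≤ (1 + B) * (z k + FF (k + 1)) := by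
    intro k
    have h1 := hO1 k
    have h2 := hF1 k
    nlinarith
  have hFK : FF K = 0 := by
    simp only [hFF]
    rw [clusters_top hK, sum_singleton]
    unfold fl
    simp
  set A := ∑ k ∈ range K, δ (k + 1) * z k with hA
  set GG := ∑ k ∈ range K, δ (k + 1) * FF (k + 1) with hGG
  have hGA : GG ≤ A := by
    have h1 : GG ≤ (A + GG) / 2 := by
      have h2 : (A + GG) / 2 = ∑ k ∈ range K, δ (k + 1) * (z k + FF (k + 1)) / 2 := by
        rw [hA, hGG, ← sum_add_distrib, sum_div]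
        apply sum_congr rfl
        intro k _
        ring
      rw [h2, hGG]
      rcases Nat.eq_zero_or_pos K with rfl | hKpos
      · simp
      · obtain ⟨K', rfl⟩ : ∃ K', K = K' + 1 := ⟨K - 1, by omega⟩
        rw [sum_range_succ, hFK, mul_zero, add_zero, sum_range_succ']
        have h3 : ∑ k ∈ range K', δ (k + 1) * FF (k + 1) ≤
            ∑ k ∈ range K', δ (k + 1 + 1) * (z (k + 1) + FF (k + 1 + 1)) / 2 := by
          apply sum_le_sum
          intro k _
          have h4 := hFFle (k + 1)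
          have h5 := hδ (k + 1) (by omega)
          have h6 : 0 ≤ z (k + 1) + FF (k + 1 + 1) := add_nonneg (hz0 _) (hFF0 _)
          have h7 := mul_le_mul_of_nonneg_left h4 (hδ0 (k + 1))
          have h8 := mul_le_mul_of_nonneg_right h5 h6
          linarith
        have h4 : 0 ≤ δ (0 + 1) * (z 0 + FF (0 + 1)) / 2 := by
          have := mul_nonneg (hδ0 (0 + 1)) (add_nonneg (hz0 0) (hFF0 (0 + 1)))
          linarith
        linarith
    linarith
  have hδ2 : ∀ k, 1 ≤ k → 2 * δ k ≤ δ (k + 1) := by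
    intro k hk
    refine le_trans ?_ (hδ k hk)
    have h := mul_nonneg hB0 (hδ0 k)
    linarith
  have hR : A ≤ 2 * ∑ t ∈ range n, δ (lev (u t) (σ t)) := by
    have h1 : A ≤ ∑ k ∈ range K, δ (k + 1) *
        ∑ t ∈ range n, (if k < lev (u t) (σ t) then (1 : ℝ) else 0) :=
      sum_le_sum fun k _ => mul_le_mul_of_nonneg_left (excess_le hlev a u n σ hσ k) (hδ0 _)
    refine h1.trans ?_
    rw [sum_lev δ K n (fun t => lev (u t) (σ t)), mul_sum]
    exact sum_le_sum fun t _ => sum_if_le δ hδz hδ0 hδ2 K _ (hK _ _)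
  have hL : ∑ r ∈ range n, δ (lev (u r) (s r)) ≤ ∑ k ∈ range K, δ (k + 1) * OO k := by
    have h1 : ∑ k ∈ range K, δ (k + 1) * OO k = ∑ k ∈ range K, δ (k + 1) *
        ∑ t ∈ range n, (if k < lev (u t) (s t) then (1 : ℝ) else 0) :=
      sum_congr rfl fun k _ => by
        simp only [hOO]
        rw [sum_two hlev k n u s]
    rw [h1, sum_lev δ K n (fun t => lev (u t) (s t))]
    exact sum_le_sum fun t _ => delta_le δ hδz hδ0 K _ (hK _ _)
  calc ∑ r ∈ range n, δ (lev (u r) (s r)) ≤ ∑ k ∈ range K, δ (k + 1) * OO k := hL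
    _ ≤ ∑ k ∈ range K, δ (k + 1) * ((1 + B) * (z k + FF (k + 1))) :=
        sum_le_sum fun k _ => mul_le_mul_of_nonneg_left (hout k) (hδ0 _)
    _ = (1 + B) * (A + GG) := by
        rw [hA, hGG, ← sum_add_distrib, mul_sum]
        apply sum_congr rfl
        intro k _
        ring
    _ ≤ (1 + B) * (A + A) := by
        apply mul_le_mul_of_nonneg_left _ (by linarith)
        linarith
    _ ≤ (1 + B) * (4 * ∑ t ∈ range n, δ (lev (u t) (σ t))) := by
        apply mul_le_mul_of_nonneg_left _ (by linarith)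
        linarith
    _ = 4 * (1 + B) * ∑ r ∈ range n, δ (lev (u r) (σ r)) := by ring

end Pool.Agent.Helper49.UM
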