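import Pool.Agent.Helper49.UM.Cnt

/-!
PROJECT UM, module UM-Scale: rounding a real ultrametric to a scale (independent).

PLAN.  If `V` has at most one point or no two different points: `lev = 0`.  Let `m₀ > 0` be the least
value of `U i j`, `i ≠ j`.  `lev i j = 0` for `i = j` and
`lev i j = ⌈Real.logb lam (U i j / m₀)⌉₊ + 1` otherwise, `δ 0 = 0`, `δ (k+1) = m₀ * lam ^ k`.
`U i j ≤ m₀ * lam ^ ⌈logb⌉₊ ≤ lam * U i j` (as `logb ≥ 0`: `⌈x⌉₊ < x + 1`).  The ultrametric inequality
for `lev`: `Nat.ceil` and `logb` are monotone; distinguish the cases of equal points.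
-/

namespace Pool.Agent.Helper49.UM

open Finset Pool.Agent.Helper8.OT

variable {V : Type} [Fintype V] [DecidableEq V]

theorem scale (U : V → V → ℝ) (h0 : ∀ i, U i i = 0) (hpos : ∀ i j, i ≠ j → 0 < U i j)
    (hsymm : ∀ i j, U i j = U j i) (hult : ∀ i j k, U i k ≤ max (U i j) (U j k))
    (lam : ℝ) (hlam : 2 ≤ lam) :
    ∃ (lev : V → V → ℕ) (K : ℕ) (δ : ℕ → ℝ), IsUlt lev ∧ (∀ i j, lev i j ≤ K) ∧ δ 0 = 0 ∧
      (∀ k, 0 ≤ δ k) ∧ (∀ k, 1 ≤ k → lam * δ k ≤ δ (k + 1)) ∧
      ∀ i j, U i j ≤ δ (lev i j) ∧ δ (lev i j) ≤ lam * U i j := by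
  classical
  have hm : ∃ m : ℝ, 0 < m ∧ ∀ i j, i ≠ j → m ≤ U i j := by
    by_cases hS : (univ.filter (fun p : V × V => p.1 ≠ p.2)).Nonempty
    · obtain ⟨p, hp, hmin⟩ := exists_min_image _ (fun p : V × V => U p.1 p.2) hS
      rw [mem_filter] at hp
      refine ⟨U p.1 p.2, hpos _ _ hp.2, fun i j hij => ?_⟩
      exact hmin (i, j) (mem_filter.mpr ⟨mem_univ _, hij⟩)
    · refine ⟨1, one_pos, fun i j hij => ?_⟩
      exact absurd ⟨(i, j), mem_filter.mpr ⟨mem_univ _, hij⟩⟩ hS
  obtain ⟨m, hm0, hm⟩ := hm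
  have hl0 : (0 : ℝ) < lam := by linarith
  have hl1 : (1 : ℝ) < lam := by linarith
  set lev : V → V → ℕ := fun i j => if i = j then 0 else ⌈Real.logb lam (U i j / m)⌉₊ + 1
    with hlev
  set δ : ℕ → ℝ := fun k => if k = 0 then 0 else m * lam ^ (k - 1) with hδ
  have levne : ∀ i j, i ≠ j → lev i j = ⌈Real.logb lam (U i j / m)⌉₊ + 1 := by
    intro i j hij
    rw [hlev]
    exact if_neg hij
  have leveq : ∀ i, lev i i = 0 := by
    intro i
    rw [hlev]
    exact if_pos rfl
  have mono : ∀ x y : ℝ, 0 < x → x ≤ y →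
      ⌈Real.logb lam (x / m)⌉₊ ≤ ⌈Real.logb lam (y / m)⌉₊ := by
    intro x y hx hxy
    apply Nat.ceil_le_ceil
    apply Real.logb_le_logb_of_le hl1 (div_pos hx hm0)
    exact div_le_div_of_nonneg_right hxy hm0.le
  refine ⟨lev, (univ : Finset (V × V)).sup (fun p => lev p.1 p.2), δ, ⟨?_, ?_, ?_⟩, ?_, ?_, ?_,
    ?_, ?_⟩
  · intro i j
    constructor
    · intro h
      by_contra hij
      rw [levne i j hij] at h
      omega
    · rintro rfl
      exact leveq i
  · intro i j
    by_cases hij : i = j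
    · rw [hij]
    · rw [levne i j hij, levne j i (Ne.symm hij), hsymm i j]
  · intro i j k
    by_cases hik : i = k
    · rw [hik, leveq]
      exact Nat.zero_le _
    by_cases hij : i = j
    · rw [hij]
      exact le_max_right _ _
    by_cases hjk : j = k
    · rw [hjk]
      exact le_max_left _ _
    rw [levne i k hik, levne i j hij, levne j k hjk]
    rcases le_max_iff.mp (hult i j k) with h | h
    · apply le_max_of_le_left
      exact Nat.succ_le_succ (mono _ _ (hpos i k hik) h)
    · apply le_max_of_le_right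
      exact Nat.succ_le_succ (mono _ _ (hpos i k hik) h)
  · intro i j
    exact le_sup (f := fun p : V × V => lev p.1 p.2) (mem_univ (i, j))
  · rw [hδ]
    exact if_pos rfl
  · intro k
    rw [hδ]
    show 0 ≤ (if k = 0 then 0 else m * lam ^ (k - 1))
    split_ifs
    · exact le_refl _
    · positivity
  · intro k hk
    rw [hδ]
    show lam * (if k = 0 then 0 else m * lam ^ (k - 1)) ≤
      (if k + 1 = 0 then 0 else m * lam ^ (k + 1 - 1))
    rw [if_neg (by omega), if_neg (by omega)]
    obtain ⟨l, rfl⟩ : ∃ l, k = l + 1 := ⟨k - 1, by omega⟩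
    have e1 : l + 1 - 1 = l := by omega
    have e2 : l + 1 + 1 - 1 = l + 1 := by omega
    rw [e1, e2, pow_succ]
    apply le_of_eq
    ring
  · intro i j
    by_cases hij : i = j
    · rw [hij, leveq, h0]
      have e : δ 0 = 0 := by
        rw [hδ]
        exact if_pos rfl
      rw [e, mul_zero]
      exact ⟨le_refl _, le_refl _⟩
    · have e : δ (lev i j) = m * lam ^ ⌈Real.logb lam (U i j / m)⌉₊ := by
        rw [levne i j hij, hδ]
        show (if ⌈Real.logb lam (U i j / m)⌉₊ + 1 = 0 then 0 else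
          m * lam ^ (⌈Real.logb lam (U i j / m)⌉₊ + 1 - 1)) = _
        rw [if_neg (by omega), Nat.add_sub_cancel]
      rw [e]
      have hU := hpos i j hij
      have hq : 0 < U i j / m := div_pos hU hm0
      have hq1 : 1 ≤ U i j / m := by
        rw [le_div_iff₀ hm0, one_mul]
        exact hm i j hij
      have hlog0 : 0 ≤ Real.logb lam (U i j / m) := Real.logb_nonneg hl1 hq1
      have hc1 := Nat.le_ceil (Real.logb lam (U i j / m))
      have hc2 := Nat.ceil_lt_add_one hlog0
      set n := ⌈Real.logb lam (U i j / m)⌉₊ with hn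
      have hmul : U i j = m * (U i j / m) := by
        field_simp
      have hpw : U i j / m = lam ^ (Real.logb lam (U i j / m)) :=
        (Real.rpow_logb hl0 (ne_of_gt hl1) hq).symm
      constructor
      · rw [hmul]
        apply mul_le_mul_of_nonneg_left _ hm0.le
        rw [hpw, ← Real.rpow_natCast]
        exact Real.rpow_le_rpow_of_exponent_le hl1.le hc1
      · have h3 : lam ^ n ≤ lam * (U i j / m) := by
          rw [← Real.rpow_natCast]
          have h4 : lam ^ ((n : ℝ)) ≤ lam ^ (Real.logb lam (U i j / m) + 1) :=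
            Real.rpow_le_rpow_of_exponent_le hl1.le hc2.le
          rw [Real.rpow_add hl0, Real.rpow_one, ← hpw] at h4
          linarith
        calc m * lam ^ n ≤ m * (lam * (U i j / m)) := mul_le_mul_of_nonneg_left h3 hm0.le
          _ = lam * U i j := by
            field_simp

end Pool.Agent.Helper49.UM
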