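import Pool.Agent.Helper49.UM.Cnt

/-!
PROJECT UM, module UM-Star: the invariants.

PLAN.  `ok_le`: induction on `t` with `ld_succ` (the new site `x = s t` has `ld s t {x} < c x`).
`ok_full`: induction on `t`; if the request number `t` leaves `v = cl lev k (u t)`
(`mem_clusters`), then `OK.own` says that `v` is full at time `t`, and `ld` does not change; otherwise
use the induction hypothesis; in both cases `ld s (t+1) v ≤ ∑ i ∈ v, c i` by `ok_le`, `ld_sum`.
`sum_open_le`: by `ld_add_ou`, for `P ∈ clusters lev (k+1)`, `Ch = children lev k P`: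
`∑ v ∈ Ch, fl v = ∑ v ∈ Ch, (ld s v + ou v - ld u v)` and `∑ v ∈ Ch, ld s v = ld s P`,
`∑ v ∈ Ch, ld u v = ld u P` (`ld_sum`, `sum_children`), so
`∑ v ∈ Ch, fl v = ∑ v ∈ Ch, ou v + (ld s P - ld u P) = ∑ v ∈ Ch, ou v - ou P + fl P
≤ ∑ v ∈ Ch, ou v + fl P`.  (This is `sum_fl_le`.)  For `v` not full `ou v = 0`; for `v` full
`ou v = ld u v + fl v - C v ≤ max 0 (ld u v - A v) + fl v` as `A v ≤ C v`.  Subtract.
`star`: induction on `t`, with the stronger statement: for fixed `k`, `P`, `l > 0`, with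
`S t = Ch.filter (fun v => l * ω(v) + 1 ≤ fl u s t v)`, either `S t = ∅` or there is `T ⊆ Ch` such that
every `v ∈ Ch` which is not full at time `t` is in `T`, `S t ⊆ T` and `l * ∑ v ∈ T, ω(v) ≤ RHS t`.
The right-hand side is monotone in `t` (`ld_le_succ`, `fl_le_succ`), full clusters stay full.
Step: if `S t ≠ ∅` keep `T` (a new element of `S (t+1)` is `v₀ = cl lev k (s t)`, which is not full
at time `t` by `OK.free`, `ok_le`).  If `S t = ∅` and `S (t+1) ≠ ∅`: the only element of `S (t+1)` is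
`v₀ = cl lev k (s t)`, `u t ∉ v₀`, `fl u s t v₀ ≥ l * ω(v₀)`, `s t ∈ P`; take for `T` the set of the
children that are not full at time `t`; by `OK.bal` (`v = cl lev k i`, `i ∈ P`, `lev i (s t) ≤ k+1`)
`fl u s t v ≥ l * ω(v)` for all `v ∈ T`, and `∑ v ∈ T, fl u s t v ≤ RHS t` (`sum_open_le`).
-/

namespace Pool.Agent.Helper49.UM

open Finset Pool.Agent.Helper8.OT

variable {V : Type} [Fintype V] [DecidableEq V]

theorem ok_le {lev : V → V → ℕ} {c ω : V → ℕ} {u s : ℕ → V} {t : ℕ}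
    (h : ∀ r < t, OK lev c ω u s r (s r)) (i : V) : ld s t {i} ≤ c i := by
  induction t with
  | zero => simp
  | succ t ih =>
    have ih' := ih (fun r hr => h r (hr.trans (Nat.lt_succ_self t)))
    rw [ld_succ]
    split_ifs with hi
    · rw [mem_singleton] at hi
      have hf := (h t (Nat.lt_succ_self t)).free
      rw [hi] at hf
      omega
    · omega

private theorem ld_le_sum {lev : V → V → ℕ} {c ω : V → ℕ} {u s : ℕ → V} {t : ℕ}
    (h : ∀ r < t, OK lev c ω u s r (s r)) (v : Finset V) : ld s t v ≤ ∑ i ∈ v, c i := by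
  rw [ld_sum]
  exact sum_le_sum (fun i _ => ok_le h i)

private theorem not_full {lev : V → V → ℕ} {c ω : V → ℕ} {u s : ℕ → V} {t : ℕ}
    (h : ∀ r < t, OK lev c ω u s r (s r)) (ht : ld s t {s t} < c (s t)) {v : Finset V}
    (hv : s t ∈ v) : ld s t v < ∑ i ∈ v, c i := by
  rw [ld_sum]
  exact sum_lt_sum (fun i _ => ok_le h i) ⟨s t, hv, ht⟩

theorem ok_full {lev : V → V → ℕ} (hlev : IsUlt lev) {c ω : V → ℕ} {u s : ℕ → V} {t : ℕ}
    (h : ∀ r < t, OK lev c ω u s r (s r)) {k : ℕ} {v : Finset V} (hv : v ∈ clusters lev k)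
    (ho : 0 < ou u s t v) : ld s t v = ∑ i ∈ v, c i := by
  induction t with
  | zero => simp at ho
  | succ t ih =>
    have h' : ∀ r < t, OK lev c ω u s r (s r) := fun r hr => h r (hr.trans (Nat.lt_succ_self t))
    have hle := ld_le_sum h v
    have hmono := ld_le_succ s t v
    rw [ou_succ] at ho
    by_cases hc : u t ∈ v ∧ s t ∉ v
    · have hvc := mem_clusters hlev hv hc.1
      have hown := (h t (Nat.lt_succ_self t)).own k
      rw [← hvc] at hown
      have := hown hc.2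
      omega
    · rw [if_neg hc, add_zero] at ho
      have := ih h' ho
      omega

theorem sum_fl_le {lev : V → V → ℕ} (hlev : IsUlt lev) (u s : ℕ → V) (t : ℕ) {k : ℕ}
    {P : Finset V} (hP : P ∈ clusters lev (k + 1)) :
    ∑ v ∈ children lev k P, (fl u s t v : ℝ) ≤
      ∑ v ∈ children lev k P, (ou u s t v : ℝ) + fl u s t P := by
  have hld : ∀ w : ℕ → V, ∑ v ∈ children lev k P, (ld w t v : ℝ) = (ld w t P : ℝ) := by
    intro w
    rw [ld_sum w t P]
    push_cast
    rw [← sum_children hlev hP (fun i => (ld w t {i} : ℝ))]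
    refine sum_congr rfl ?_
    intro v _
    rw [ld_sum w t v]
    push_cast
    rfl
  have h1 : ∑ v ∈ children lev k P, (fl u s t v : ℝ) =
      ∑ v ∈ children lev k P, ((ld s t v : ℝ) + ou u s t v - ld u t v) := by
    refine sum_congr rfl ?_
    intro v _
    have := ld_add_ou u s t v
    have h2 : (ld s t v : ℝ) + ou u s t v = ld u t v + fl u s t v := by exact_mod_cast this
    linarith
  rw [h1, sum_sub_distrib, sum_add_distrib, hld s, hld u]
  have h3 : (ld s t P : ℝ) + ou u s t P = ld u t P + fl u s t P := by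
    exact_mod_cast ld_add_ou u s t P
  have h4 : (0 : ℝ) ≤ ou u s t P := Nat.cast_nonneg _
  linarith

private theorem sum_open_le {lev : V → V → ℕ} (hlev : IsUlt lev) {a c ω : V → ℕ}
    (hac : ∀ i, a i ≤ c i)
    {u s : ℕ → V} {t : ℕ} (h : ∀ r < t, OK lev c ω u s r (s r)) {k : ℕ} {P : Finset V}
    (hP : P ∈ clusters lev (k + 1)) :
    ∑ v ∈ (children lev k P).filter (fun v => ld s t v < ∑ i ∈ v, c i), (fl u s t v : ℝ) ≤
      ∑ v ∈ children lev k P, max 0 ((ld u t v : ℝ) - ∑ i ∈ v, (a i : ℝ)) + fl u s t P := by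
  have h1 := sum_fl_le hlev u s t hP
  have h2 : ∑ v ∈ (children lev k P).filter (fun v => ld s t v < ∑ i ∈ v, c i),
      (fl u s t v : ℝ) ≤ ∑ v ∈ children lev k P, ((fl u s t v : ℝ) - ou u s t v
        + max 0 ((ld u t v : ℝ) - ∑ i ∈ v, (a i : ℝ))) := by
    rw [sum_filter]
    refine sum_le_sum ?_
    intro v hv
    have hm : (0 : ℝ) ≤ max 0 ((ld u t v : ℝ) - ∑ i ∈ v, (a i : ℝ)) := le_max_left _ _
    split_ifs with hf
    · have ho : ou u s t v = 0 := by
        by_contra hne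
        have := ok_full hlev h (children_subset hv) (Nat.pos_of_ne_zero hne)
        omega
      rw [ho]
      push_cast
      linarith
    · have hle := ld_le_sum h v
      have heq : ld s t v = ∑ i ∈ v, c i := by omega
      have h3 : (ld s t v : ℝ) + ou u s t v = ld u t v + fl u s t v := by
        exact_mod_cast ld_add_ou u s t v
      have h4 : (ld s t v : ℝ) = ∑ i ∈ v, (c i : ℝ) := by
        rw [heq]
        push_cast
        rfl
      have h5 : ∑ i ∈ v, (a i : ℝ) ≤ ∑ i ∈ v, (c i : ℝ) :=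
        sum_le_sum (fun i _ => by exact_mod_cast hac i)
      have h6 : (ld u t v : ℝ) - ∑ i ∈ v, (a i : ℝ) ≤
          max 0 ((ld u t v : ℝ) - ∑ i ∈ v, (a i : ℝ)) := le_max_right _ _
      linarith
  rw [sum_add_distrib, sum_sub_distrib] at h2
  linarith

private theorem fl_change {u s : ℕ → V} {t : ℕ} {v : Finset V} {x : ℝ}
    (h1 : ¬ x ≤ (fl u s t v : ℝ)) (h2 : x ≤ (fl u s (t + 1) v : ℝ)) : u t ∉ v ∧ s t ∈ v := by
  by_contra hc
  rw [fl_succ, if_neg hc, add_zero] at h2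
  exact h1 h2

private theorem rhs_mono {lev : V → V → ℕ} {a : V → ℕ} (u s : ℕ → V) (t k : ℕ) (P : Finset V) :
    ∑ v ∈ children lev k P, max 0 ((ld u t v : ℝ) - ∑ i ∈ v, (a i : ℝ)) + fl u s t P ≤
      ∑ v ∈ children lev k P, max 0 ((ld u (t + 1) v : ℝ) - ∑ i ∈ v, (a i : ℝ))
        + fl u s (t + 1) P := by
  refine add_le_add (sum_le_sum ?_) ?_
  · intro v _
    refine max_le_max le_rfl ?_
    have : (ld u t v : ℝ) ≤ ld u (t + 1) v := by exact_mod_cast ld_le_succ u t v
    linarith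
  · exact_mod_cast fl_le_succ u s t P

private theorem star_aux {lev : V → V → ℕ} (hlev : IsUlt lev) {a c ω : V → ℕ}
    (hac : ∀ i, a i ≤ c i)
    {u s : ℕ → V} {k : ℕ} {P : Finset V}
    (hP : P ∈ clusters lev (k + 1)) (l : ℝ) (hl : 0 < l) (t : ℕ)
    (h : ∀ r < t, OK lev c ω u s r (s r)) :
    (children lev k P).filter (fun v => l * (∑ i ∈ v, (ω i : ℝ)) + 1 ≤ fl u s t v ∧
      0 < ∑ i ∈ v, (ω i : ℝ)) = ∅ ∨
    ∃ T ⊆ children lev k P, (∀ v ∈ children lev k P, ld s t v < ∑ i ∈ v, c i → v ∈ T) ∧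
      (children lev k P).filter (fun v => l * (∑ i ∈ v, (ω i : ℝ)) + 1 ≤ fl u s t v ∧
        0 < ∑ i ∈ v, (ω i : ℝ)) ⊆ T ∧
      l * ∑ v ∈ T, (∑ i ∈ v, (ω i : ℝ)) ≤
        ∑ v ∈ children lev k P, max 0 ((ld u t v : ℝ) - ∑ i ∈ v, (a i : ℝ)) + fl u s t P := by
  induction t with
  | zero =>
    left
    rw [filter_eq_empty_iff]
    rintro v _ ⟨hv, -⟩
    rw [fl_zero] at hv
    have h0 : (0 : ℝ) ≤ ∑ i ∈ v, (ω i : ℝ) := sum_nonneg (fun i _ => Nat.cast_nonneg _)
    have h1 : 0 ≤ l * ∑ i ∈ v, (ω i : ℝ) := mul_nonneg hl.le h0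
    push_cast at hv
    linarith
  | succ t ih =>
    have h' : ∀ r < t, OK lev c ω u s r (s r) := fun r hr => h r (hr.trans (Nat.lt_succ_self t))
    have hOK := h t (Nat.lt_succ_self t)
    rcases ih h' with hS | ⟨T, hTC, hTo, hST, hTl⟩
    · by_cases hS' : (children lev k P).filter (fun v =>
          l * (∑ i ∈ v, (ω i : ℝ)) + 1 ≤ fl u s (t + 1) v ∧ 0 < ∑ i ∈ v, (ω i : ℝ)) = ∅
      · exact Or.inl hS'
      · right
        have hch : ∀ v ∈ (children lev k P).filter (fun v =>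
            l * (∑ i ∈ v, (ω i : ℝ)) + 1 ≤ fl u s (t + 1) v ∧ 0 < ∑ i ∈ v, (ω i : ℝ)),
            u t ∉ v ∧ s t ∈ v := by
          intro v hv
          rw [mem_filter] at hv
          refine fl_change (x := l * (∑ i ∈ v, (ω i : ℝ)) + 1) ?_ hv.2.1
          intro hx
          rw [filter_eq_empty_iff] at hS
          exact hS hv.1 ⟨hx, hv.2.2⟩
        obtain ⟨v₀, hv₀⟩ := nonempty_iff_ne_empty.mpr hS'
        have hv₀c := hch v₀ hv₀
        rw [mem_filter] at hv₀
        obtain ⟨hv₀Ch, hv₀l, hv₀p⟩ := hv₀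
        have hv₀P : v₀ ⊆ P := ((mem_children hlev hP).mp hv₀Ch).2
        have hsP : s t ∈ P := hv₀P hv₀c.2
        have hv₀eq : v₀ = cl lev k (s t) := mem_clusters hlev (children_subset hv₀Ch) hv₀c.2
        have hfl₀ : l * (∑ i ∈ v₀, (ω i : ℝ)) ≤ fl u s t v₀ := by
          rw [fl_succ, if_pos hv₀c] at hv₀l
          push_cast at hv₀l
          linarith
        refine ⟨(children lev k P).filter (fun v => ld s t v < ∑ i ∈ v, c i), filter_subset _ _,
          ?_, ?_, ?_⟩
        · intro v hv hlt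
          rw [mem_filter]
          exact ⟨hv, lt_of_le_of_lt (ld_le_succ s t v) hlt⟩
        · intro v hv
          have hvc := hch v hv
          rw [mem_filter] at hv ⊢
          exact ⟨hv.1, not_full h' hOK.free hvc.2⟩
        · refine le_trans ?_ ((sum_open_le hlev hac h' hP).trans (rhs_mono u s t k P))
          rw [mul_sum]
          refine sum_le_sum ?_
          intro v hv
          rw [mem_filter] at hv
          obtain ⟨hvCh, hvo⟩ := hv
          have hvP := (mem_children hlev hP).mp hvCh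
          have hvim := hvCh
          unfold children at hvim
          rw [mem_image] at hvim
          obtain ⟨i, hiP, hi⟩ := hvim
          have hlevi : lev i (s t) ≤ k + 1 := by
            rw [← mem_cl, ← mem_clusters hlev hP hiP]
            exact hsP
          have hb := hOK.bal k i (by rw [← hv₀eq]; exact hv₀c.1) hlevi (by rw [hi]; exact hvo)
          rw [← hv₀eq, hi] at hb
          have hb' : (fl u s t v₀ : ℝ) * ∑ j ∈ v, (ω j : ℝ) ≤
              fl u s t v * ∑ j ∈ v₀, (ω j : ℝ) := by exact_mod_cast hb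
          have h0 : (0 : ℝ) ≤ ∑ i ∈ v, (ω i : ℝ) := sum_nonneg (fun i _ => Nat.cast_nonneg _)
          have h1 : l * (∑ i ∈ v₀, (ω i : ℝ)) * ∑ j ∈ v, (ω j : ℝ) ≤
              fl u s t v₀ * ∑ j ∈ v, (ω j : ℝ) := mul_le_mul_of_nonneg_right hfl₀ h0
          have h2 : (l * ∑ j ∈ v, (ω j : ℝ)) * (∑ i ∈ v₀, (ω i : ℝ)) ≤
              fl u s t v * ∑ j ∈ v₀, (ω j : ℝ) := by
            refine le_trans (le_of_eq ?_) (h1.trans hb')
            ring
          exact le_of_mul_le_mul_right h2 hv₀p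
    · right
      refine ⟨T, hTC, ?_, ?_, hTl.trans (rhs_mono u s t k P)⟩
      · intro v hv hlt
        exact hTo v hv (lt_of_le_of_lt (ld_le_succ s t v) hlt)
      · intro v hv
        rw [mem_filter] at hv
        by_cases hx : l * (∑ i ∈ v, (ω i : ℝ)) + 1 ≤ fl u s t v
        · exact hST (mem_filter.mpr ⟨hv.1, hx, hv.2.2⟩)
        · have hc := fl_change hx hv.2.1
          exact hTo v hv.1 (not_full h' hOK.free hc.2)

theorem star {lev : V → V → ℕ} (hlev : IsUlt lev) {a c ω : V → ℕ} (hac : ∀ i, a i ≤ c i)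
    {u s : ℕ → V} {t : ℕ} (h : ∀ r < t, OK lev c ω u s r (s r)) {k : ℕ} {P : Finset V}
    (hP : P ∈ clusters lev (k + 1)) (l : ℝ) (hl : 0 < l) :
    l * ∑ v ∈ (children lev k P).filter
        (fun v => l * (∑ i ∈ v, (ω i : ℝ)) + 1 ≤ fl u s t v), (∑ i ∈ v, (ω i : ℝ)) ≤
      ∑ v ∈ children lev k P, max 0 ((ld u t v : ℝ) - ∑ i ∈ v, (a i : ℝ)) + fl u s t P := by
  have hw : ∀ v : Finset V, (0 : ℝ) ≤ ∑ i ∈ v, (ω i : ℝ) :=
    fun v => sum_nonneg (fun i _ => Nat.cast_nonneg _)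
  have hs : ∑ v ∈ (children lev k P).filter
        (fun v => l * (∑ i ∈ v, (ω i : ℝ)) + 1 ≤ fl u s t v), (∑ i ∈ v, (ω i : ℝ)) =
      ∑ v ∈ (children lev k P).filter (fun v => l * (∑ i ∈ v, (ω i : ℝ)) + 1 ≤ fl u s t v ∧
        0 < ∑ i ∈ v, (ω i : ℝ)), (∑ i ∈ v, (ω i : ℝ)) := by
    rw [← filter_filter, sum_filter (fun v => 0 < ∑ i ∈ v, (ω i : ℝ))]
    refine sum_congr rfl ?_
    intro v _
    split_ifs with hp
    · rfl
    · exact le_antisymm (not_lt.mp hp) (hw v)
  rw [hs]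
  rcases star_aux hlev hac hP l hl t h with hS | ⟨T, -, -, hST, hTl⟩
  · rw [hS, sum_empty, mul_zero]
    refine add_nonneg (sum_nonneg ?_) (Nat.cast_nonneg _)
    intro v _
    exact le_max_left _ _
  · refine le_trans ?_ hTl
    refine mul_le_mul_of_nonneg_left ?_ hl.le
    exact sum_le_sum_of_subset_of_nonneg hST (fun v _ _ => hw v)

end Pool.Agent.Helper49.UM
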