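import Pool.Agent.Helper49.UM.ResDefs
import Pool.Agent.Helper84.TransportProof

/-!
PROJECT UM: the lower bounds on the two classes (adapted from
`Pool/Agent/Helper84/TransportProof.lean`).
-/

namespace Pool.Agent.Helper49.UM

open Finset Pool.Agent.Helper84.Transport
open scoped ENNReal

section game

variable {m : ℕ} {a c : Fin m → ℕ} (A : OnlineAlgorithm m a c) (w : Fin m → ℝ)
  (hw : ∀ i, 0 < w i)

/-- The state of the adversary's game after `k` phases: the set `K` of filled sites has `k`
elements, and either the online cost is already large, or it is at least the partial sum. -/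
theorem game' (hw1 : ∀ i, 1 ≤ w i) (S : Finset (Fin m)) (T p : ℕ) (hp : 0 < p)
    (hT : ∀ J ⊆ S, p ≤ J.card → T ≤ ∑ i ∈ J, a i) (L : ℝ) (hL : ∀ i, i ∉ S → L ≤ w i) :
    ∀ k, k + p ≤ S.card → ∃ (r : ℕ → Option (Fin m)) (K : Finset (Fin m)),
      K ⊆ S ∧ K.card = k ∧
      (∀ j < T, r j = none) ∧
      (∃ g : ℕ → Fin m, (∀ j, T ≤ j → j < T + ∑ i ∈ K, a i → g j ∈ K ∧ r j = some (g j)) ∧
        ∀ i ∈ K, ((Ico T (T + ∑ i ∈ K, a i)).filter fun j => g j = i).card = a i) ∧
      (L ≤ rcost A w hw r (T + ∑ i ∈ K, a i) ∨
        T + 2 * ((T : ℝ) - ∑ i ∈ S, ((c i : ℝ) - a i)) *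
          (∑ l ∈ range k, 1 / ((S.card : ℝ) - l)) ≤ rcost A w hw r (T + ∑ i ∈ K, a i)) := by
  classical
  intro k
  induction k with
  | zero =>
    intro hS0
    obtain ⟨i₀, -⟩ : S.Nonempty := Finset.card_pos.1 (by omega)
    refine ⟨fun _ => none, ∅, by simp, by simp, by simp, ⟨fun _ => i₀, ?_⟩, ?_⟩
    · constructor
      · intro j h1 h2
        simp at h2
        omega
      · simp
    · right
      simp only [range_zero, sum_empty, mul_zero, add_zero]
      unfold rcost
      calc (T : ℝ) = ∑ j ∈ range T, (1 : ℝ) := by simp
        _ ≤ _ := by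
          refine Finset.sum_le_sum fun j _ => ?_
          unfold starDist
          simp
          exact hw1 _
  | succ k ih =>
    intro hk
    obtain ⟨r, K, hKS, hKc, hr0, ⟨g, hg1, hg2⟩, hcost⟩ := ih (by omega)
    set n := T + ∑ i ∈ K, a i with hn
    -- choose the site with the largest excess
    have hne : (S \ K).Nonempty := by
      rw [Finset.sdiff_nonempty]
      intro h
      have := Finset.card_le_card h
      omega
    obtain ⟨i, hi, hmax⟩ := Finset.exists_max_image (S \ K)
      (fun i => (load A w hw r n i : ℝ) - ((c i : ℝ) - a i)) hne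
    obtain ⟨hiS, hiK⟩ := Finset.mem_sdiff.1 hi
    let r' : ℕ → Option (Fin m) := fun j => if j < n then r j else some i
    have hr' : ∀ j < n, r' j = r j := fun j hj => if_pos hj
    have hr'' : ∀ j, n ≤ j → r' j = some i := fun j hj => if_neg (by omega)
    have hsumK : ∑ j ∈ insert i K, a j = ∑ j ∈ K, a j + a i := by
      rw [Finset.sum_insert hiK, add_comm]
    -- remaining site for OPT
    have hcap : n + a i ≤ ∑ j, a j := by
      have hsub : insert i K ⊆ S := Finset.insert_subset hiS hKS
      have hcard : (S \ insert i K).card = S.card - (k + 1) := by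
        rw [Finset.card_sdiff_of_subset hsub, Finset.card_insert_of_notMem hiK, hKc]
      have hJ := hT (S \ insert i K) Finset.sdiff_subset (by omega)
      calc n + a i = T + ∑ j ∈ insert i K, a j := by rw [hsumK, hn]; ring
        _ ≤ ∑ j ∈ S \ insert i K, a j + ∑ j ∈ insert i K, a j := by gcongr
        _ = ∑ j ∈ S, a j := Finset.sum_sdiff hsub
        _ ≤ ∑ j, a j := Finset.sum_le_sum_of_subset (Finset.subset_univ _)
    refine ⟨r', insert i K, Finset.insert_subset hiS hKS, ?_, ?_, ⟨fun j => if j < n then g j else i,
      ?_, ?_⟩, ?_⟩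
    · rw [Finset.card_insert_of_notMem hiK, hKc]
    · intro j hj
      rw [hr' j (by omega)]
      exact hr0 j hj
    · intro j hj1 hj2
      by_cases hjn : j < n
      · simp only [hjn, if_true]
        rw [hr' j hjn]
        have := hg1 j hj1 hjn
        exact ⟨Finset.mem_insert_of_mem this.1, this.2⟩
      · simp only [hjn, if_false]
        exact ⟨Finset.mem_insert_self _ _, hr'' j (by omega)⟩
    · intro i₁ hi₁
      have hsplit : Ico T (T + ∑ j ∈ insert i K, a j) = Ico T n ∪ Ico n (n + a i) := by
        rw [hsumK]
        ext j
        simp only [mem_Ico, mem_union, hn]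
        omega
      have hdisj : Disjoint (Ico T n) (Ico n (n + a i)) := by
        rw [Finset.disjoint_left]
        intro j hj hj'
        rw [mem_Ico] at hj hj'
        omega
      rw [hsplit, Finset.filter_union, Finset.card_union_of_disjoint
        (Finset.disjoint_filter_filter hdisj)]
      have e1 : ((Ico T n).filter fun j => (if j < n then g j else i) = i₁) =
          (Ico T n).filter fun j => g j = i₁ := by
        refine Finset.filter_congr fun j hj => ?_
        rw [mem_Ico] at hj
        simp [hj.2]
      have e2 : ((Ico n (n + a i)).filter fun j => (if j < n then g j else i) = i₁) =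
          (Ico n (n + a i)).filter fun j => i = i₁ := by
        refine Finset.filter_congr fun j hj => ?_
        rw [mem_Ico] at hj
        simp [not_lt.2 hj.1]
      rw [e1, e2]
      by_cases hii : i = i₁
      · subst hii
        have e3 : ((Ico T n).filter fun j => g j = i) = ∅ := by
          rw [Finset.filter_eq_empty_iff]
          intro j hj hgj
          rw [mem_Ico] at hj
          exact hiK (hgj ▸ (hg1 j hj.1 hj.2).1)
        rw [e3]
        simp
      · have hi₁K : i₁ ∈ K := by
          rcases Finset.mem_insert.1 hi₁ with h | h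
          · exact absurd h.symm hii
          · exact h
        simp only [hii, Finset.filter_false, Finset.card_empty, add_zero]
        exact hg2 i₁ hi₁K
    · -- cost
      have hload : ∀ l, load A w hw r' n l = load A w hw r n l := fun l =>
        load_congr A w hw (fun j hj => hr' j hj) l
      have hrc : rcost A w hw r' n = rcost A w hw r n :=
        rcost_congr A w hw fun j hj => hr' j hj
      have hlen : T + ∑ j ∈ insert i K, a j = n + a i := by rw [hsumK, hn]; ring
      rw [hlen]
      have hmono : rcost A w hw r' n ≤ rcost A w hw r' (n + a i) := by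
        unfold rcost
        exact Finset.sum_le_sum_of_subset_of_nonneg (Finset.range_mono (Nat.le_add_right _ _))
          fun j _ _ => starDist_nonneg w hw _ _
      rcases hcost with hbig | hcost
      · left
        rw [← hrc] at hbig
        exact hbig.trans hmono
      · -- if a far site has been used, the cost is large
        by_cases hfar : ∃ l, l ∉ S ∧ load A w hw r n l ≠ 0
        · left
          obtain ⟨l, hlS, hl⟩ := hfar
          refine le_trans ?_ hmono
          rw [hrc]
          obtain ⟨j, hj⟩ := Finset.card_pos.1 (Nat.pos_of_ne_zero hl)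
          obtain ⟨hj1, hj2⟩ := Finset.mem_filter.1 hj
          have hjr : r j ≠ some l := by
            by_cases hjT : j < T
            · rw [hr0 j hjT]; simp
            · have := hg1 j (by omega) (Finset.mem_range.1 hj1)
              rw [this.2]
              intro h
              exact hlS (hKS (Option.some.inj h ▸ this.1))
          calc L ≤ w l := hL l hlS
            _ ≤ starDist w (some (site A w hw r j)) (r j) := by
              rw [hj2]
              unfold starDist
              rw [if_neg (fun h => hjr h.symm)]
              simp only [Option.elim_some]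
              have : 0 ≤ (r j).elim 0 w := by
                cases r j with
                | none => simp
                | some i => simpa using (hw i).le
              linarith
            _ ≤ rcost A w hw r n :=
              Finset.single_le_sum (f := fun j => starDist w (some (site A w hw r j)) (r j))
                (fun j _ => starDist_nonneg w hw _ _) hj1
        · right
          push Not at hfar
          have hsumS : ∑ l ∈ S, (load A w hw r n l : ℝ) = n := by
            have h1 := sum_load A w hw r n
            rw [← Finset.sum_subset (Finset.subset_univ S) (fun l _ hl => hfar l hl)] at h1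
            exact_mod_cast h1
          have hnS : n ≤ ∑ j, a j := by omega
          -- total excess of the remaining sites
          have hexc : (T : ℝ) - ∑ l ∈ S, ((c l : ℝ) - a l) ≤
              ∑ l ∈ S \ K, ((load A w hw r n l : ℝ) - ((c l : ℝ) - a l)) := by
            have h1 := Finset.sum_sdiff (f := fun l => (load A w hw r n l : ℝ)) hKS
            have h2 := Finset.sum_sdiff (f := fun l => ((c l : ℝ) - a l)) hKS
            have h3 : ∑ l ∈ K, (load A w hw r n l : ℝ) ≤ ∑ l ∈ K, (c l : ℝ) :=
              Finset.sum_le_sum fun l _ => by exact_mod_cast load_le A w hw r n hnS l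
            have h6 : ∑ l ∈ S \ K, ((load A w hw r n l : ℝ) - ((c l : ℝ) - a l)) =
                ∑ l ∈ S \ K, (load A w hw r n l : ℝ) - ∑ l ∈ S \ K, ((c l : ℝ) - a l) :=
              Finset.sum_sub_distrib _ _
            rw [h6]
            have h4 : (n : ℝ) = T + ∑ l ∈ K, (a l : ℝ) := by rw [hn]; push_cast; ring
            have h5 : ∑ l ∈ K, ((c l : ℝ) - a l) = ∑ l ∈ K, (c l : ℝ) - ∑ l ∈ K, (a l : ℝ) :=
              Finset.sum_sub_distrib _ _
            linarith
          have hle : ∑ l ∈ S \ K, ((load A w hw r n l : ℝ) - ((c l : ℝ) - a l)) ≤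
              ((S.card : ℝ) - k) * ((load A w hw r n i : ℝ) - ((c i : ℝ) - a i)) := by
            have h1 := Finset.sum_le_card_nsmul (S \ K)
              (fun l => (load A w hw r n l : ℝ) - ((c l : ℝ) - a l)) _ hmax
            rw [nsmul_eq_mul, Finset.card_sdiff_of_subset hKS, hKc, Nat.cast_sub (by omega)] at h1
            exact h1
          have hpos : (0 : ℝ) < (S.card : ℝ) - k := by
            have : (k : ℝ) < S.card := by exact_mod_cast (by omega : k < S.card)
            linarith
          have hexi : ((T : ℝ) - ∑ l ∈ S, ((c l : ℝ) - a l)) * (1 / ((S.card : ℝ) - k)) ≤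
              (load A w hw r n i : ℝ) - ((c i : ℝ) - a i) := by
            rw [mul_one_div, div_le_iff₀ hpos]
            linarith
          have hph := phase_cost A w hw hw1 r' n i hcap (fun j hj _ => hr'' j hj)
          rw [hload i, hrc] at hph
          rw [Finset.sum_range_succ]
          have : (T : ℝ) + 2 * ((T : ℝ) - ∑ i ∈ S, ((c i : ℝ) - a i)) *
              (∑ l ∈ range k, 1 / ((S.card : ℝ) - l) + 1 / ((S.card : ℝ) - k)) =
            (T + 2 * ((T : ℝ) - ∑ i ∈ S, ((c i : ℝ) - a i)) *
              (∑ l ∈ range k, 1 / ((S.card : ℝ) - l))) +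
            2 * (((T : ℝ) - ∑ i ∈ S, ((c i : ℝ) - a i)) * (1 / ((S.card : ℝ) - k))) := by ring
          rw [this]
          linarith

end game

private theorem sum_harmonic' (p k : ℕ) :
    ∑ l ∈ range k, 1 / (((p + k : ℕ) : ℝ) - l) = (harmonic (p + k) : ℝ) - harmonic p := by
  induction k with
  | zero => simp
  | succ k ih =>
    rw [Finset.sum_range_succ', ← Nat.add_assoc, harmonic_succ]
    have h1 : ∑ l ∈ range k, 1 / (((p + k + 1 : ℕ) : ℝ) - ((l + 1 : ℕ) : ℝ)) =
        ∑ l ∈ range k, 1 / (((p + k : ℕ) : ℝ) - l) := by
      refine Finset.sum_congr rfl fun l _ => ?_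
      congr 1
      push_cast
      ring
    rw [h1, ih]
    push_cast
    rw [sub_zero, one_div]
    ring

/-- `T` requests can be distributed among sites of `J` with enough capacity. -/
private theorem exists_distr {m : ℕ} [NeZero m] (a : Fin m → ℕ) (J : Finset (Fin m)) (T : ℕ)
    (hT : T ≤ ∑ i ∈ J, a i) :
    ∃ f : ℕ → Fin m, (∀ j < T, f j ∈ J) ∧ ∀ i, ((range T).filter fun j => f j = i).card ≤ a i := by
  classical
  induction T with
  | zero => exact ⟨fun _ => 0, by simp, by simp⟩
  | succ T ih =>
    obtain ⟨f, hf1, hf2⟩ := ih (by omega)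
    obtain ⟨i, hiJ, hi⟩ : ∃ i ∈ J, ((range T).filter fun j => f j = i).card < a i := by
      by_contra hcon
      push Not at hcon
      have h1 : ∑ i ∈ J, a i ≤ ∑ i ∈ J, ((range T).filter fun j => f j = i).card :=
        Finset.sum_le_sum hcon
      have h2 : ∑ i ∈ J, ((range T).filter fun j => f j = i).card = T := by
        have := Finset.card_eq_sum_card_fiberwise (f := f) (s := range T) (t := J)
          (fun j hj => hf1 j (mem_range.1 hj))
        rw [card_range] at this
        exact this.symm
      omega
    refine ⟨fun j => if j < T then f j else i, ?_, ?_⟩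
    · intro j hj
      by_cases h : j < T
      · simp only [h, if_true]
        exact hf1 j h
      · simp only [h, if_false]
        exact hiJ
    · intro i'
      rw [range_add_one, filter_insert]
      have h1 : ((range T).filter fun j => (if j < T then f j else i) = i') =
          (range T).filter fun j => f j = i' := by
        refine Finset.filter_congr fun j hj => ?_
        rw [mem_range] at hj
        simp [hj]
      rw [h1]
      by_cases h : i = i'
      · subst h
        rw [if_pos (by simp), card_insert_of_notMem (by simp)]
        omega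
      · rw [if_neg (by simp [h])]
        exact hf2 i'

/-- The lower bound for one algorithm, on a star metric. -/
theorem lower_aux {m : ℕ} (a c : Fin m → ℕ) (S : Finset (Fin m)) (p T : ℕ) (hp : 0 < p)
    (hpS : p ≤ S.card) (hT0 : 0 < T) (hT' : ∀ i ∈ S, T ≤ p * a i) (A : OnlineAlgorithm m a c)
    (C : ∀ N : Type, MetricSpace N → Prop)
    (L₀ : ℝ) (hC : ∀ (L : ℝ) (_ : 1 ≤ L) (_ : L₀ ≤ L)
      (hw : ∀ i, 0 < (if i ∈ S then (1 : ℝ) else L)),
      C (Option (Fin m)) (starMetric (fun i => if i ∈ S then (1 : ℝ) else L) hw)) :
    ENNReal.ofReal (1 + 2 * (1 - (∑ i ∈ S, ((c i : ℝ) - a i)) / T) * ((harmonic S.card : ℝ) - harmonic p)) ≤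
      ⨆ (N : Type) (inst : MetricSpace N) (_ : C N inst) (s : Fin m → N)
        (_ : Function.Injective s) (r : ℕ → N)
        (n : ℕ) (_ : n ≤ ∑ i, a i), A.cost s r n / opt a s r n := by
  classical
  set B : ℝ := 1 + 2 * (1 - (∑ i ∈ S, ((c i : ℝ) - a i)) / T) * ((harmonic S.card : ℝ) - harmonic p) with hB
  have hTpos : (0 : ℝ) < T := by exact_mod_cast hT0
  set L : ℝ := max (max 1 L₀) (T * B) with hL
  let w : Fin m → ℝ := fun i => if i ∈ S then 1 else L
  have hw1 : ∀ i, 1 ≤ w i := by
    intro i
    simp only [w]
    split_ifs
    · exact le_rfl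
    · exact (le_max_left _ _).trans (le_max_left _ _)
  have hw : ∀ i, 0 < w i := fun i => lt_of_lt_of_le one_pos (hw1 i)
  have hT : ∀ J ⊆ S, p ≤ J.card → T ≤ ∑ i ∈ J, a i := by
    intro J hJS hJ
    have h1 : J.card * T ≤ p * ∑ i ∈ J, a i := by
      rw [Finset.mul_sum, ← smul_eq_mul, ← Finset.sum_const]
      exact Finset.sum_le_sum fun i hi => hT' i (hJS hi)
    have h2 : p * T ≤ p * ∑ i ∈ J, a i := (Nat.mul_le_mul_right T hJ).trans h1
    exact Nat.le_of_mul_le_mul_left h2 hp
  obtain ⟨r, K, hKS, hKc, hr0, ⟨g, hg1, hg2⟩, hcost⟩ := game' A w hw hw1 S T p hp hT L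
    (fun i hi => by simp [w, hi]) (S.card - p) (by omega)
  set n := T + ∑ i ∈ K, a i with hn
  have hTJ : T ≤ ∑ i ∈ S \ K, a i :=
    hT _ Finset.sdiff_subset (by rw [Finset.card_sdiff_of_subset hKS]; omega)
  have : NeZero m := ⟨by
    rintro rfl
    have : S = ∅ := Subsingleton.elim _ _
    rw [this] at hpS
    simp at hpS
    omega⟩
  obtain ⟨f, hf1, hf2⟩ := exists_distr a (S \ K) T hTJ
  have hnle : n ≤ ∑ i, a i := by
    calc n = T + ∑ j ∈ K, a j := hn
      _ ≤ ∑ j ∈ S \ K, a j + ∑ j ∈ K, a j := by gcongr
      _ = ∑ j ∈ S, a j := Finset.sum_sdiff hKS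
      _ ≤ ∑ j, a j := Finset.sum_le_sum_of_subset (Finset.subset_univ _)
  let inst := starMetric w hw
  have hrc : T * B ≤ rcost A w hw r n := by
    rcases hcost with h | h
    · exact (le_max_right _ _).trans h
    · have h' := sum_harmonic' p (S.card - p)
      rw [Nat.add_sub_cancel' hpS] at h'
      rw [h'] at h
      refine le_trans (le_of_eq ?_) h
      rw [hB]
      field_simp
  -- online cost
  have hon : ENNReal.ofReal (T * B) ≤ A.cost (N := Option (Fin m)) some r n := by
    refine (ENNReal.ofReal_le_ofReal hrc).trans (le_of_eq ?_)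
    unfold rcost OnlineAlgorithm.cost
    rw [ENNReal.ofReal_sum_of_nonneg fun j _ => starDist_nonneg w hw _ _]
    refine Finset.sum_congr rfl fun j _ => ?_
    rw [edist_dist]
    rfl
  -- offline cost
  have hopt : opt (N := Option (Fin m)) a some r n ≤ T := by
    unfold opt
    refine iInf₂_le_of_le (fun j => if j < T then f j else g j) ?_ ?_
    · intro i
      have h1 : {j | j < n ∧ (if j < T then f j else g j) = i} ⊆
          (((range T).filter fun j => f j = i) ∪
            ((Ico T n).filter fun j => g j = i) : Finset ℕ) := by
        intro j hj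
        obtain ⟨hj1, hj2⟩ := hj
        rw [Finset.mem_coe, Finset.mem_union, Finset.mem_filter, Finset.mem_filter, mem_range,
          mem_Ico]
        by_cases hjT : j < T
        · left
          rw [if_pos hjT] at hj2
          exact ⟨hjT, hj2⟩
        · right
          rw [if_neg hjT] at hj2
          exact ⟨⟨by omega, hj1⟩, hj2⟩
      refine (Set.ncard_le_ncard h1 (Finset.finite_toSet _)).trans ?_
      rw [Set.ncard_coe_finset]
      refine (Finset.card_union_le _ _).trans ?_
      by_cases hiK : i ∈ K
      · have h2 : ((range T).filter fun j => f j = i) = ∅ := by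
          rw [Finset.filter_eq_empty_iff]
          intro j hj hfj
          rw [mem_range] at hj
          exact (Finset.mem_sdiff.1 (hfj ▸ hf1 j hj)).2 hiK
        rw [h2, Finset.card_empty, zero_add]
        exact (hg2 i hiK).le
      · have h2 : ((Ico T n).filter fun j => g j = i) = ∅ := by
          rw [Finset.filter_eq_empty_iff]
          intro j hj hgj
          rw [mem_Ico] at hj
          exact hiK (hgj ▸ (hg1 j hj.1 hj.2).1)
        rw [h2, Finset.card_empty, add_zero]
        exact hf2 i
    · have hsplit : range n = range T ∪ Ico T n := by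
        ext j
        simp only [mem_range, mem_union, mem_Ico, hn]
        omega
      rw [hsplit, Finset.sum_union (by
        rw [Finset.disjoint_left]
        intro j hj hj'
        rw [mem_range] at hj
        rw [mem_Ico] at hj'
        omega)]
      have h1 : ∑ j ∈ range T, edist (some (if j < T then f j else g j) : Option (Fin m)) (r j) =
          T := by
        rw [Finset.sum_congr rfl (g := fun _ => (1 : ℝ≥0∞))]
        · simp
        · intro j hj
          rw [mem_range] at hj
          rw [if_pos hj, hr0 j hj, edist_dist]
          have : dist (some (f j) : Option (Fin m)) none = 1 := by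
            change starDist w (some (f j)) none = 1
            unfold starDist
            simp [w, (Finset.mem_sdiff.1 (hf1 j hj)).1]
          rw [this, ENNReal.ofReal_one]
      have h2 : ∑ j ∈ Ico T n, edist (some (if j < T then f j else g j) : Option (Fin m)) (r j) =
          0 := by
        refine Finset.sum_eq_zero fun j hj => ?_
        rw [mem_Ico] at hj
        rw [if_neg (by omega), (hg1 j hj.1 hj.2).2, edist_self]
      rw [h1, h2, add_zero]
  refine le_iSup_of_le (Option (Fin m)) (le_iSup_of_le inst (le_iSup_of_le
    (hC L ((le_max_left _ _).trans (le_max_left _ _)) ((le_max_right _ _).trans (le_max_left _ _)) hw)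
    (le_iSup_of_le some
    (le_iSup_of_le (Option.some_injective _) (le_iSup_of_le r (le_iSup_of_le n
      (le_iSup_of_le hnle ?_)))))))
  calc ENNReal.ofReal B = ENNReal.ofReal (T * B) / T := by
        rw [ENNReal.ofReal_mul hTpos.le, ENNReal.ofReal_natCast]
        rw [ENNReal.eq_div_iff (by exact_mod_cast hT0.ne') (ENNReal.natCast_ne_top T)]
    _ ≤ A.cost some r n / opt a some r n := ENNReal.div_le_div hon hopt

theorem lower {m : ℕ} (a c : Fin m → ℕ) (S : Finset (Fin m)) (p T : ℕ) (hp : 0 < p)
    (hpS : p ≤ S.card) (hT0 : 0 < T) (hT : ∀ i ∈ S, T ≤ p * a i) (C : ∀ N : Type, MetricSpace N → Prop)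
    (L₀ : ℝ) (hC : ∀ (L : ℝ) (_ : 1 ≤ L) (_ : L₀ ≤ L)
      (hw : ∀ i, 0 < (if i ∈ S then (1 : ℝ) else L)),
      C (Option (Fin m)) (starMetric (fun i => if i ∈ S then (1 : ℝ) else L) hw)) :
    ENNReal.ofReal (1 + 2 * (1 - (∑ i ∈ S, ((c i : ℝ) - a i)) / T) * ((harmonic S.card : ℝ) - harmonic p)) ≤
      RstarOn C a c := by
  unfold RstarOn
  refine le_iInf fun A => ?_
  exact lower_aux a c S p T hp hpS hT0 hT A C L₀ hC

/-- The star with weights 1 and `L` is at distortion at most 2 from an ultrametric with the values
0, 2, `2 L`. -/
theorem star_nearUlt {m : ℕ} (S : Finset (Fin m)) (L : ℝ) (hL : 1 ≤ L) {D σ : ℝ} (hD : 2 ≤ D)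
    (hσ : σ ≤ L) (hw : ∀ i, 0 < (if i ∈ S then (1 : ℝ) else L)) :
    NearUlt D σ (Option (Fin m)) (starMetric (fun i => if i ∈ S then (1 : ℝ) else L) hw) := by
  classical
  set w : Fin m → ℝ := fun i => if i ∈ S then (1 : ℝ) else L with hw'
  have hw1 : ∀ i, w i = 1 ∨ w i = L := by
    intro i
    simp only [hw']
    split_ifs
    · exact Or.inl rfl
    · exact Or.inr rfl
  have hW : ∀ x : Option (Fin m), 0 ≤ x.elim 0 w := by
    intro x
    cases x with
    | none => simp
    | some i => simpa using (hw i).le
  have hd : ∀ x y : Option (Fin m), (starMetric w hw).dist x y =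
      if x = y then 0 else x.elim 0 w + y.elim 0 w := by
    intro x y
    change starDist w x y = _
    unfold starDist
    split_ifs <;> rfl
  have hval : ∀ x y : Option (Fin m), x ≠ y →
      max (x.elim 0 w) (y.elim 0 w) = 1 ∨ max (x.elim 0 w) (y.elim 0 w) = L := by
    intro x y hxy
    cases x with
    | none =>
      cases y with
      | none => exact absurd rfl hxy
      | some j =>
        simp only [Option.elim_none, Option.elim_some]
        rw [max_eq_right (hw j).le]
        exact hw1 j
    | some i =>
      cases y with
      | none =>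
        simp only [Option.elim_none, Option.elim_some]
        rw [max_eq_left (hw i).le]
        exact hw1 i
      | some j =>
        simp only [Option.elim_some]
        rcases le_total (w i) (w j) with h | h
        · rw [max_eq_right h]
          exact hw1 j
        · rw [max_eq_left h]
          exact hw1 i
  refine ⟨fun x y => if x = y then 0 else 2 * max (x.elim 0 w) (y.elim 0 w), ?_, ?_, ?_, ?_⟩
  · intro x y
    by_cases h : x = y
    · simp [h]
    · simp only [if_neg h, if_neg (fun h' : y = x => h h'.symm)]
      rw [max_comm]
  · intro x y z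
    have hx := hW x
    have hy := hW y
    have hz := hW z
    by_cases h1 : x = z
    · simp only [h1, if_true]
      by_cases h2 : z = y
      · simp [h2]
      · simp only [if_neg h2]
        refine le_max_of_le_left ?_
        have := le_max_left (z.elim 0 w) (y.elim 0 w)
        linarith
    · by_cases h2 : x = y
      · subst h2
        simp only [if_true, if_neg h1]
        exact le_max_right _ _
      · by_cases h3 : y = z
        · subst h3
          simp only [if_true, if_neg h1]
          exact le_max_left _ _
        · simp only [if_neg h1, if_neg h2, if_neg h3]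
          rcases le_total (x.elim 0 w) (z.elim 0 w) with h | h
          · rw [max_eq_right h]
            refine le_max_of_le_right ?_
            have := le_max_right (y.elim 0 w) (z.elim 0 w)
            linarith
          · rw [max_eq_left h]
            refine le_max_of_le_left ?_
            have := le_max_left (x.elim 0 w) (y.elim 0 w)
            linarith
  · intro x y
    have hx := hW x
    have hy := hW y
    rw [hd]
    by_cases h : x = y
    · simp [h]
    · simp only [if_neg h]
      have h1 := le_max_left (x.elim 0 w) (y.elim 0 w)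
      have h2 := le_max_right (x.elim 0 w) (y.elim 0 w)
      constructor
      · linarith
      · have h3 : max (x.elim 0 w) (y.elim 0 w) ≤ x.elim 0 w + y.elim 0 w :=
          max_le (by linarith) (by linarith)
        nlinarith
  · intro x y x' y' h1 h2
    by_cases hxy : x = y
    · simp [hxy] at h1
    · by_cases hxy' : x' = y'
      · simp only [if_neg hxy, if_pos hxy'] at h2
        simp only [if_neg hxy] at h1
        linarith
      · simp only [if_neg hxy, if_neg hxy'] at h2 ⊢
        rcases hval x y hxy with h3 | h3 <;> rcases hval x' y' hxy' with h4 | h4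
        · rw [h3, h4] at h2
          linarith
        · rw [h3, h4]
          linarith
        · rw [h3, h4] at h2
          linarith
        · rw [h3, h4] at h2
          linarith

end Pool.Agent.Helper49.UM
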