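import Pool.Agent.Helper49.UM.Sep
import Pool.Agent.Helper49.UM.Lower

/-!
PROJECT UM, the upper bounds on the two classes.
-/

namespace Pool.Agent.Helper49.UM

open Finset Pool.Agent.Helper84.Transport
open scoped ENNReal

private theorem ncard_eq {m : ℕ} (n : ℕ) (f : ℕ → Fin m) (i : Fin m) :
    {j | j < n ∧ f j = i}.ncard = ((range n).filter (fun j => f j = i)).card := by
  have : {j | j < n ∧ f j = i} = ↑((range n).filter fun j => f j = i) := by
    ext j
    simp
  rw [this, Set.ncard_coe_finset]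

theorem upper_general {m : ℕ} (a c : Fin m → ℕ) (C : ∀ N : Type, MetricSpace N → Prop)
    (κ : ℝ) (hκ : 0 < κ)
    (h : ∀ (N : Type) (inst : MetricSpace N) (s : Fin m → N),
      ∃ (near : N → Fin m) (S : (ℕ → Fin m) → ℕ → Fin m),
        (∀ u u' t, (∀ r ≤ t, u r = u' r) → S u t = S u' t) ∧
        (∀ u n, n ≤ ∑ i, a i → ∀ i, ((range n).filter (fun r => S u r = i)).card ≤ c i) ∧
        (C N inst → Function.Injective s → ∀ (r : ℕ → N) (n : ℕ), n ≤ ∑ i, a i →
          ∀ o : ℕ → Fin m, (∀ i, ((range n).filter (fun r => o r = i)).card ≤ a i) →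
            ∑ j ∈ range n, dist (s (S (fun k => near (r k)) j)) (r j) ≤
              κ * ∑ j ∈ range n, dist (s (o j)) (r j))) :
    RstarOn C a c ≤ ENNReal.ofReal κ := by
  choose near S hS1 hS2 hS3 using h
  have hcong : ∀ (N : Type) (inst : MetricSpace N) (s : Fin m → N) (r : ℕ → N) (j : ℕ),
      S N inst s (fun k => near N inst s (r (min k j))) j =
        S N inst s (fun k => near N inst s (r k)) j := by
    intro N inst s r j
    refine hS1 N inst s _ _ j ?_
    intro k hk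
    rw [min_eq_left hk]
  let A : OnlineAlgorithm m a c :=
    { assign := fun N inst s j r =>
        S N inst s (fun k => near N inst s (r ⟨min k j, by omega⟩)) j
      feasible := by
        intro N inst s r n hn i
        have h1 : ∀ j, S N inst s (fun k => near N inst s (r (min k j))) j =
          S N inst s (fun k => near N inst s (r k)) j := fun j => hcong N inst s r j
        have h2 : ∀ j, S N inst s (fun k => near N inst s
            ((fun k : Fin (j + 1) => r k) ⟨min k j, by omega⟩)) j =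
          S N inst s (fun k => near N inst s (r k)) j := fun j => h1 j
        simp only [h2]
        rw [ncard_eq]
        exact hS2 N inst s _ n hn i }
  unfold RstarOn
  refine iInf_le_of_le A ?_
  refine iSup_le fun N => iSup_le fun inst => iSup_le fun hC => iSup_le fun s => iSup_le fun hs =>
    iSup_le fun r => iSup_le fun n => iSup_le fun hn => ?_
  apply ENNReal.div_le_of_le_mul
  have hκ' : ENNReal.ofReal κ ≠ 0 := by
    rw [Ne, ENNReal.ofReal_eq_zero, not_le]
    exact hκ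
  rw [opt, ENNReal.mul_iInf_of_ne hκ' ENNReal.ofReal_ne_top]
  refine le_iInf fun o => ?_
  rw [ENNReal.mul_iInf_of_ne hκ' ENNReal.ofReal_ne_top]
  refine le_iInf fun ho => ?_
  have h1 : ∑ j ∈ range n, edist (s (o j)) (r j) =
      ENNReal.ofReal (∑ j ∈ range n, dist (s (o j)) (r j)) := by
    rw [ENNReal.ofReal_sum_of_nonneg fun _ _ => dist_nonneg]
    exact Finset.sum_congr rfl fun j _ => edist_dist _ _
  have h2 : A.cost s r n = ENNReal.ofReal (∑ j ∈ range n,
      dist (s (S N inst s (fun k => near N inst s (r k)) j)) (r j)) := by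
    rw [OnlineAlgorithm.cost, ENNReal.ofReal_sum_of_nonneg fun _ _ => dist_nonneg]
    apply Finset.sum_congr rfl
    intro j _
    rw [edist_dist]
    have h3 : A.assign N s j (fun k => r k) =
      S N inst s (fun k => near N inst s (r (min k j))) j := rfl
    rw [h3, hcong]
  rw [h2, h1, ← ENNReal.ofReal_mul hκ.le]
  refine ENNReal.ofReal_le_ofReal (hS3 N inst s hC hs r n hn o ?_)
  intro i
  rw [← ncard_eq]
  exact ho i

private theorem log_nonneg' {m : ℕ} (hm : 0 < m) {ρ : ℝ} (hρ1 : 1 ≤ ρ) :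
    0 ≤ Real.log (min (m : ℝ) ρ) := by
  apply Real.log_nonneg
  exact le_min (by exact_mod_cast hm) hρ1

theorem one_le_rho {m : ℕ} (hm : 0 < m) (a c : Fin m → ℕ) (hac : ∀ i, a i < c i) (ρ : ℝ)
    (hρ : ∀ i, (c i : ℝ) ≤ ρ * ((c i : ℝ) - a i)) : 1 ≤ ρ := by
  have h1 := hρ ⟨0, hm⟩
  have h2 : (a ⟨0, hm⟩ : ℝ) < c ⟨0, hm⟩ := by exact_mod_cast hac ⟨0, hm⟩
  have h3 : (0 : ℝ) ≤ a ⟨0, hm⟩ := Nat.cast_nonneg _
  by_contra hcon
  push Not at hcon
  nlinarith

/-- The upper bound on a class of spaces near an ultrametric on which there is an algorithm with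
ratio `Q` for the sites. -/
private theorem upper_aux {m : ℕ} (hm : 0 < m) (a c : Fin m → ℕ) (D σ : ℝ) (Q : ℝ)
    (hQ0 : 0 ≤ Q) (hD : 1 ≤ D) (S₀ : (ℕ → Fin m) → ℕ → Fin m)
    (hS₀ : (∀ u u' t, (∀ r ≤ t, u r = u' r) → S₀ u t = S₀ u' t) ∧
      ∀ u n, n ≤ ∑ i, a i → ∀ i, ((range n).filter (fun r => S₀ u r = i)).card ≤ c i)
    (hAlg : ∀ U : Fin m → Fin m → ℝ, (∀ i, U i i = 0) → (∀ i j, i ≠ j → 0 < U i j) →
      (∀ i j, U i j = U j i) → (∀ i j k, U i k ≤ max (U i j) (U j k)) →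
      (∀ i j k l, 0 < U i j → U i j < U k l → σ * U i j ≤ U k l) →
      ∃ S : (ℕ → Fin m) → ℕ → Fin m, (∀ u u' t, (∀ r ≤ t, u r = u' r) → S u t = S u' t) ∧
      ∀ u n, n ≤ ∑ i, a i →
        (∀ i, ((range n).filter (fun r => S u r = i)).card ≤ c i) ∧
        ∀ o : ℕ → Fin m, (∀ i, ((range n).filter (fun r => o r = i)).card ≤ a i) →
          ∑ r ∈ range n, U (u r) (S u r) ≤ Q * ∑ r ∈ range n, U (u r) (o r)) :
    RstarOn (NearUlt D σ) a c ≤ ENNReal.ofReal (D * (1 + Q)) := by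
  classical
  have : NeZero m := ⟨by omega⟩
  refine upper_general a c _ _ (by positivity) ?_
  intro N inst s
  by_cases hN : NearUlt D σ N inst ∧ Function.Injective s
  · obtain ⟨⟨U, hU1, hU2, hU3, hU4⟩, hs⟩ := hN
    have hU0 : ∀ x, U x x = 0 := by
      intro x
      have h1 := hU3 x x
      rw [dist_self, mul_zero] at h1
      linarith [h1.1, h1.2]
    have hUn : ∀ x y, 0 ≤ U x y := fun x y => dist_nonneg.trans (hU3 x y).1
    obtain ⟨S, hS1, hS2⟩ := hAlg (fun i j => U (s i) (s j)) (fun i => hU0 _)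
      (fun i j hij => lt_of_lt_of_le (dist_pos.2 (hs.ne hij)) (hU3 _ _).1)
      (fun i j => hU1 _ _) (fun i j k => hU2 _ _ _) (fun i j k l => hU4 _ _ _ _)
    have hnear : ∀ x : N, ∃ i, ∀ j, U (s i) x ≤ U (s j) x := fun x =>
      Finite.exists_min fun i => U (s i) x
    choose near hnear using hnear
    refine ⟨near, S, hS1, fun u n hn i => (hS2 u n hn).1 i, ?_⟩
    intro _ _ r n hn o ho
    have h1 := (hS2 (fun k => near (r k)) n hn).2 o ho
    set u : ℕ → Fin m := fun k => near (r k) with hu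
    have h2 : ∑ t ∈ range n, U (s (u t)) (s (o t)) ≤ ∑ t ∈ range n, U (s (o t)) (r t) := by
      apply Finset.sum_le_sum
      intro t _
      have h3 := hU2 (s (u t)) (r t) (s (o t))
      have h4 := hnear (r t) (o t)
      rw [hU1 (r t) (s (o t))] at h3
      exact h3.trans (max_le h4 le_rfl)
    have h3 : ∑ t ∈ range n, U (s (S u t)) (r t) ≤
        ∑ t ∈ range n, U (s (u t)) (s (S u t)) + ∑ t ∈ range n, U (s (o t)) (r t) := by
      rw [← Finset.sum_add_distrib]
      apply Finset.sum_le_sum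
      intro t _
      have h4 := hU2 (s (S u t)) (s (u t)) (r t)
      have h5 := hnear (r t) (o t)
      have h6 := hUn (s (u t)) (s (S u t))
      have h7 := hUn (s (o t)) (r t)
      rw [hU1 (s (S u t)) (s (u t))] at h4
      refine h4.trans (max_le ?_ ?_)
      · linarith
      · simp only [hu] at h5 h6 ⊢
        linarith
    have h4 : ∑ t ∈ range n, U (s (o t)) (r t) ≤ D * ∑ t ∈ range n, dist (s (o t)) (r t) := by
      rw [Finset.mul_sum]
      exact Finset.sum_le_sum fun t _ => (hU3 _ _).2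
    have h5 : ∑ t ∈ range n, dist (s (S u t)) (r t) ≤ ∑ t ∈ range n, U (s (S u t)) (r t) :=
      Finset.sum_le_sum fun t _ => (hU3 _ _).1
    have h6 := mul_le_mul_of_nonneg_left h2 hQ0
    calc ∑ j ∈ range n, dist (s (S u j)) (r j)
        ≤ (1 + Q) * ∑ t ∈ range n, U (s (o t)) (r t) := by linarith
      _ ≤ (1 + Q) * (D * ∑ t ∈ range n, dist (s (o t)) (r t)) :=
          mul_le_mul_of_nonneg_left h4 (by linarith)
      _ = D * (1 + Q) * ∑ j ∈ range n, dist (s (o j)) (r j) := by ring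
  · refine ⟨fun _ => 0, S₀, hS₀.1, hS₀.2, ?_⟩
    intro h1 h2
    exact absurd ⟨h1, h2⟩ hN

/-- The upper bound for spaces near an ultrametric. -/
theorem upper_nearUlt {m : ℕ} (hm : 0 < m) (a c : Fin m → ℕ) (hac : ∀ i, a i < c i) (ρ : ℝ)
    (hρ : ∀ i, (c i : ℝ) ≤ ρ * ((c i : ℝ) - a i)) (D σ : ℝ) (hD : 1 ≤ D) :
    RstarOn (NearUlt D σ) a c ≤
      ENNReal.ofReal (D * (1 + 8 * (2 + Real.log (min (m : ℝ) ρ)) ^ 2)) := by
  have : NeZero m := ⟨by omega⟩
  have hl := log_nonneg' hm (one_le_rho hm a c hac ρ hρ)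
  obtain ⟨S₀, hS1, hS2⟩ := alg1 a c hac ρ hρ
  refine upper_aux hm a c D σ _ (by positivity) hD S₀ ⟨hS1, fun u n hn i => (hS2 u n hn).1 i⟩ ?_
  intro U h0 hpos hsymm hult _
  have h := alg U h0 hpos hsymm hult a c hac ρ hρ
  rwa [Fintype.card_fin] at h

/-- The upper bound for spaces near an ultrametric with separated values. -/
theorem upper_sep {m : ℕ} (hm : 0 < m) (a c : Fin m → ℕ) (hac : ∀ i, a i < c i) (ρ : ℝ)
    (hρ : ∀ i, (c i : ℝ) ≤ ρ * ((c i : ℝ) - a i)) (D σ : ℝ) (hD : 1 ≤ D)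
    (hσ : 2 * (2 + Real.log (min (m : ℝ) ρ)) ≤ σ) :
    RstarOn (NearUlt D σ) a c ≤
      ENNReal.ofReal (D * (1 + 4 * (2 + Real.log (min (m : ℝ) ρ)))) := by
  have : NeZero m := ⟨by omega⟩
  have hl := log_nonneg' hm (one_le_rho hm a c hac ρ hρ)
  obtain ⟨S₀, hS1, hS2⟩ := alg1 a c hac ρ hρ
  refine upper_aux hm a c D σ _ (by positivity) hD S₀ ⟨hS1, fun u n hn i => (hS2 u n hn).1 i⟩ ?_
  intro U h0 hpos hsymm hult hsep
  have h := algSep U h0 hpos hsymm hult a c hac ρ hρ (by
    intro i j k l h1 h2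
    refine le_trans ?_ (hsep i j k l h1 h2)
    rw [Fintype.card_fin]
    exact mul_le_mul_of_nonneg_right hσ h1.le)
  rwa [Fintype.card_fin] at h

end Pool.Agent.Helper49.UM
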