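import Pool.Agent.Helper49.UM.Star

/-!
PROJECT UM, module UM-Bnd: the weighted harmonic sum.

PLAN.  `weighted`: induction on `s.card`, generalizing `s` and `α`.  Let `v₀ ∈ s` have minimal `g`.
If `g v₀ ≤ α`, the term of `v₀` is 0; use the induction hypothesis for `s.erase v₀`.
If `α < g₀ := g v₀`: `w(s) * g₀ ≤ S` (hypothesis for `l = g₀`, all elements count), so
`∑ w v (g v - α) = w(s) (g₀ - α) + ∑_{v ≠ v₀} w v (g v - g₀)`, the first term is at most
`S * (1 - α / g₀) ≤ S * log (g₀ / α)` (`Real.one_sub_inv_le_log_of_pos`), the second at most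
`S * log (β / g₀)` by the induction hypothesis for `s.erase v₀` and `α = g₀`.
`bnd_e` (`ω = c - a`): with `w v = ∑ i ∈ v, ω i ≥ 1` (a child is nonempty), `g v = (fl v - 1) / w v`,
`S` = the right-hand side: `l ≤ g v ↔ l * w v + 1 ≤ fl v`; `g v ≤ ρ` as
`fl v ≤ ld s v ≤ ∑ c ≤ ρ * w v` (`fl_le_ld`, `ld_sum`, `ok_le`).  `weighted` with `α = 1`, `β = ρ`
gives `∑ max 0 (fl v - 1 - w v) ≤ S * log ρ`.  And
`max 0 (fl v - w v) ≤ max 0 (fl v - 1 - w v) + (if w v + 1 ≤ fl v then 1 else 0)` (natural numbers: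
`fl v ≥ w v + 1` or `fl v ≤ w v`), where `∑ (if ..) ≤ ∑_{w v + 1 ≤ fl v} w v ≤ S` (`star` with `l = 1`).
`bnd_m` (`ω = 1`, `w v = v.card`, `∑ w v = P.card ≤ m = Fintype.card V`): as `1 ≤ ∑ i ∈ v, (c i - a i)`,
`max 0 (fl v - ∑ (c - a)) ≤ w v * max 0 (g v)`, `g v = (fl v - 1) / w v`.  If `S = 0` then `fl v ≤ 1`
... : `star` with `l = g v > 0` gives `g v ≤ g v * w v ≤ S = 0`, contradiction; so all terms vanish.
If `S > 0`: `g v ≤ S` for all `v` in the same way; `w v * max 0 (g v) ≤ w v * (S / m) +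
w v * max 0 (g v - S / m)`, and `weighted` with `α = S / m`, `β = S` gives `S + S * log m`.
-/

namespace Pool.Agent.Helper49.UM

open Finset Pool.Agent.Helper8.OT

theorem weighted {ι : Type} [DecidableEq ι] (s : Finset ι) (w g : ι → ℝ) (hw : ∀ i ∈ s, 0 ≤ w i)
    (S : ℝ) (hS0 : 0 ≤ S) (α β : ℝ) (hα : 0 < α) (hαβ : α ≤ β) (hβ : ∀ i ∈ s, g i ≤ β)
    (hS : ∀ l : ℝ, 0 < l → l * ∑ i ∈ s.filter (fun i => l ≤ g i), w i ≤ S) :
    ∑ i ∈ s, w i * max 0 (g i - α) ≤ S * Real.log (β / α) := by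
  obtain ⟨n, hn⟩ : ∃ n, n = s.card := ⟨_, rfl⟩
  induction n generalizing s α with
  | zero =>
    have hs : s = ∅ := card_eq_zero.1 hn.symm
    rw [hs, sum_empty]
    refine mul_nonneg hS0 (Real.log_nonneg ?_)
    rw [le_div_iff₀ hα, one_mul]
    exact hαβ
  | succ n ih =>
    have hne : s.Nonempty := by
      rw [← card_pos]
      omega
    obtain ⟨v₀, hv₀, hmin⟩ := exists_min_image s g hne
    have hcard : n = (s.erase v₀).card := by
      rw [card_erase_of_mem hv₀]
      omega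
    have hS' : ∀ l : ℝ, 0 < l → l * ∑ i ∈ (s.erase v₀).filter (fun i => l ≤ g i), w i ≤ S := by
      intro l hl
      refine le_trans (mul_le_mul_of_nonneg_left ?_ hl.le) (hS l hl)
      refine sum_le_sum_of_subset_of_nonneg ?_ fun i hi _ => hw i (mem_filter.1 hi).1
      exact filter_subset_filter _ (erase_subset _ _)
    have hw' : ∀ i ∈ s.erase v₀, 0 ≤ w i := fun i hi => hw i (mem_of_mem_erase hi)
    have hβ' : ∀ i ∈ s.erase v₀, g i ≤ β := fun i hi => hβ i (mem_of_mem_erase hi)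
    by_cases hc : g v₀ ≤ α
    · rw [← add_sum_erase s _ hv₀, max_eq_left (by linarith), mul_zero, zero_add]
      exact ih (s.erase v₀) hw' α hα hαβ hβ' hS' hcard
    · have hg : α < g v₀ := not_le.1 hc
      have hg0 : 0 < g v₀ := hα.trans hg
      have h1 := ih (s.erase v₀) hw' (g v₀) hg0 (hβ v₀ hv₀) hβ' hS' hcard
      have h2 : g v₀ * ∑ i ∈ s, w i ≤ S := by
        have h := hS (g v₀) hg0
        rwa [filter_true_of_mem fun i hi => hmin i hi] at h
      have h3 : ∑ i ∈ s, w i * max 0 (g i - α) =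
          (∑ i ∈ s, w i) * (g v₀ - α) + ∑ i ∈ s.erase v₀, w i * max 0 (g i - g v₀) := by
        have h4 : ∑ i ∈ s.erase v₀, w i * max 0 (g i - g v₀) =
            ∑ i ∈ s, w i * max 0 (g i - g v₀) := by
          rw [← add_sum_erase s (fun i => w i * max 0 (g i - g v₀)) hv₀, sub_self, max_self,
            mul_zero, zero_add]
        rw [h4, sum_mul, ← sum_add_distrib]
        refine sum_congr rfl fun i hi => ?_
        have h5 := hmin i hi
        rw [max_eq_right (by linarith), max_eq_right (by linarith)]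
        ring
      have h4 : (∑ i ∈ s, w i) * (g v₀ - α) ≤ S * Real.log (g v₀ / α) := by
        have h5 : 1 - (g v₀ / α)⁻¹ ≤ Real.log (g v₀ / α) :=
          Real.one_sub_inv_le_log_of_pos (div_pos hg0 hα)
        have h6 : 0 ≤ 1 - (g v₀ / α)⁻¹ := by
          rw [inv_div, sub_nonneg, div_le_one hg0]
          exact hg.le
        calc (∑ i ∈ s, w i) * (g v₀ - α) =
              (g v₀ * ∑ i ∈ s, w i) * (1 - (g v₀ / α)⁻¹) := by
              rw [inv_div]
              field_simp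
          _ ≤ S * (1 - (g v₀ / α)⁻¹) := mul_le_mul_of_nonneg_right h2 h6
          _ ≤ S * Real.log (g v₀ / α) := mul_le_mul_of_nonneg_left h5 hS0
      have h5 : Real.log (β / α) = Real.log (g v₀ / α) + Real.log (β / g v₀) := by
        have hβ0 : 0 < β := hα.trans_le hαβ
        rw [Real.log_div hβ0.ne' hα.ne', Real.log_div hg0.ne' hα.ne',
          Real.log_div hβ0.ne' hg0.ne']
        ring
      rw [h3, h5, mul_add]
      exact add_le_add h4 h1

variable {V : Type} [Fintype V] [DecidableEq V]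

private theorem bnd_ne {lev : V → V → ℕ} (hlev : IsUlt lev) {k : ℕ} {P v : Finset V}
    (hv : v ∈ children lev k P) : v.Nonempty := by
  unfold children at hv
  rw [mem_image] at hv
  obtain ⟨b, -, rfl⟩ := hv
  exact ⟨b, self_mem_cl hlev k b⟩

private theorem bnd_star {lev : V → V → ℕ} (hlev : IsUlt lev) {a c ω : V → ℕ}
    (hac : ∀ i, a i ≤ c i) {u s : ℕ → V} {t : ℕ} (h : ∀ r < t, OK lev c ω u s r (s r)) {k : ℕ}
    {P : Finset V} (hP : P ∈ clusters lev (k + 1))
    (hW : ∀ v ∈ children lev k P, 0 < ∑ i ∈ v, (ω i : ℝ)) (l : ℝ) (hl : 0 < l) :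
    l * ∑ v ∈ (children lev k P).filter
        (fun v => l ≤ ((fl u s t v : ℝ) - 1) / ∑ i ∈ v, (ω i : ℝ)), (∑ i ∈ v, (ω i : ℝ)) ≤
      ∑ v ∈ children lev k P, max 0 ((ld u t v : ℝ) - ∑ i ∈ v, (a i : ℝ)) + fl u s t P := by
  have h1 := star hlev hac h hP l hl
  have e : (children lev k P).filter
      (fun v => l ≤ ((fl u s t v : ℝ) - 1) / ∑ i ∈ v, (ω i : ℝ)) =
      (children lev k P).filter (fun v => l * (∑ i ∈ v, (ω i : ℝ)) + 1 ≤ fl u s t v) := by
    refine filter_congr fun v hv => ?_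
    rw [le_div_iff₀ (hW v hv)]
    constructor <;> intro h <;> linarith
  rw [e]
  exact h1

private theorem bnd_S0 {lev : V → V → ℕ} {a : V → ℕ} {u s : ℕ → V} {t k : ℕ} {P : Finset V} :
    0 ≤ ∑ v ∈ children lev k P, max 0 ((ld u t v : ℝ) - ∑ i ∈ v, (a i : ℝ)) +
      (fl u s t P : ℝ) :=
  add_nonneg (sum_nonneg fun _ _ => le_max_left _ _) (Nat.cast_nonneg _)

theorem bnd_e {lev : V → V → ℕ} (hlev : IsUlt lev) {a c : V → ℕ} (hac : ∀ i, a i < c i)
    (ρ : ℝ) (hρ : ∀ i, (c i : ℝ) ≤ ρ * ((c i : ℝ) - a i))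
    {u s : ℕ → V} {t : ℕ} (h : ∀ r < t, OK lev c (fun i => c i - a i) u s r (s r)) {k : ℕ}
    {P : Finset V} (hP : P ∈ clusters lev (k + 1)) :
    ∑ v ∈ children lev k P, max 0 ((fl u s t v : ℝ) - ∑ i ∈ v, ((c i : ℝ) - a i)) ≤
      (1 + Real.log ρ) *
        (∑ v ∈ children lev k P, max 0 ((ld u t v : ℝ) - ∑ i ∈ v, (a i : ℝ)) + fl u s t P) := by
  obtain ⟨S, hS⟩ : ∃ S : ℝ, S = ∑ v ∈ children lev k P,
      max 0 ((ld u t v : ℝ) - ∑ i ∈ v, (a i : ℝ)) + (fl u s t P : ℝ) := ⟨_, rfl⟩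
  have hS0 : 0 ≤ S := by
    rw [hS]
    exact bnd_S0
  rw [← hS]
  have hcast : ∀ i, ((c i - a i : ℕ) : ℝ) = (c i : ℝ) - a i := fun i =>
    Nat.cast_sub (hac i).le
  have hpos : ∀ i, (1 : ℝ) ≤ (c i : ℝ) - a i := by
    intro i
    rw [← hcast]
    exact_mod_cast Nat.sub_pos_of_lt (hac i)
  have hWeq : ∀ v : Finset V, ∑ i ∈ v, ((c i - a i : ℕ) : ℝ) = ∑ i ∈ v, ((c i : ℝ) - a i) :=
    fun v => sum_congr rfl fun i _ => hcast i
  have hW1 : ∀ v ∈ children lev k P, (1 : ℝ) ≤ ∑ i ∈ v, ((c i - a i : ℕ) : ℝ) := by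
    intro v hv
    obtain ⟨b, hb⟩ := bnd_ne hlev hv
    rw [hWeq]
    exact (hpos b).trans
      (single_le_sum (f := fun i => (c i : ℝ) - a i) (fun i _ => by have := hpos i; linarith) hb)
  have hW0 : ∀ v ∈ children lev k P, 0 < ∑ i ∈ v, ((c i - a i : ℕ) : ℝ) := fun v hv =>
    lt_of_lt_of_le one_pos (hW1 v hv)
  have hρ1 : 1 ≤ ρ := by
    have hP' := hP
    unfold clusters at hP'
    rw [mem_image] at hP'
    obtain ⟨b, -, -⟩ := hP'
    have h1 := hρ b
    have h2 := hpos b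
    have h3 : (0 : ℝ) ≤ a b := Nat.cast_nonneg _
    by_contra hcon
    have h4 : ρ < 1 := not_le.1 hcon
    have h5 : ρ * ((c b : ℝ) - a b) < 1 * ((c b : ℝ) - a b) :=
      mul_lt_mul_of_pos_right h4 (by linarith)
    linarith
  have hstar := bnd_star hlev (fun i => (hac i).le) h hP hW0
  rw [← hS] at hstar
  have hwt := weighted (children lev k P) (fun v => ∑ i ∈ v, ((c i - a i : ℕ) : ℝ))
    (fun v => ((fl u s t v : ℝ) - 1) / ∑ i ∈ v, ((c i - a i : ℕ) : ℝ))
    (fun v hv => (hW0 v hv).le) S hS0 1 ρ one_pos hρ1 (by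
      intro v hv
      rw [div_le_iff₀ (hW0 v hv)]
      have h1 : (fl u s t v : ℝ) ≤ ∑ i ∈ v, (c i : ℝ) := by
        have h2 : fl u s t v ≤ ∑ i ∈ v, c i := by
          refine (fl_le_ld u s t v).trans ?_
          rw [ld_sum]
          exact sum_le_sum fun i _ => ok_le h i
        exact_mod_cast h2
      have h3 : ∑ i ∈ v, (c i : ℝ) ≤ ρ * ∑ i ∈ v, ((c i - a i : ℕ) : ℝ) := by
        rw [mul_sum]
        refine sum_le_sum fun i _ => ?_
        rw [hcast]
        exact hρ i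
      linarith) hstar
  rw [div_one] at hwt
  have hone := star hlev (fun i => (hac i).le) h hP 1 one_pos
  rw [← hS, one_mul] at hone
  calc ∑ v ∈ children lev k P, max 0 ((fl u s t v : ℝ) - ∑ i ∈ v, ((c i : ℝ) - a i))
      ≤ ∑ v ∈ children lev k P, ((∑ i ∈ v, ((c i - a i : ℕ) : ℝ)) *
          max 0 (((fl u s t v : ℝ) - 1) / (∑ i ∈ v, ((c i - a i : ℕ) : ℝ)) - 1) +
          if 1 * (∑ i ∈ v, ((c i - a i : ℕ) : ℝ)) + 1 ≤ (fl u s t v : ℝ) then
            ∑ i ∈ v, ((c i - a i : ℕ) : ℝ) else 0) := by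
        refine sum_le_sum fun v hv => ?_
        rw [← hWeq]
        have hw := hW0 v hv
        have hw1 := hW1 v hv
        have hn : ∑ i ∈ v, ((c i - a i : ℕ) : ℝ) = ((∑ i ∈ v, (c i - a i) : ℕ) : ℝ) := by
          push_cast
          rfl
        obtain ⟨n, hn'⟩ : ∃ n : ℕ, n = ∑ i ∈ v, (c i - a i) := ⟨_, rfl⟩
        rw [← hn'] at hn
        rw [hn] at hw hw1 ⊢
        rw [one_mul]
        by_cases hle : (n : ℝ) + 1 ≤ (fl u s t v : ℝ)
        · rw [if_pos hle]
          have e1 : (n : ℝ) * max 0 (((fl u s t v : ℝ) - 1) / n - 1) =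
              (fl u s t v : ℝ) - 1 - n := by
            rw [max_eq_right, mul_sub, mul_div_cancel₀ _ hw.ne', mul_one]
            rw [sub_nonneg, le_div_iff₀ hw]
            linarith
          rw [e1, max_eq_right (by linarith)]
          linarith
        · rw [if_neg hle]
          have h1 : fl u s t v < n + 1 := by
            by_contra hcon
            exact hle (by exact_mod_cast not_lt.1 hcon)
          have h2 : (fl u s t v : ℝ) ≤ n := by exact_mod_cast Nat.lt_succ_iff.1 h1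
          rw [max_eq_left (by linarith), add_zero]
          exact mul_nonneg hw.le (le_max_left _ _)
    _ = ∑ v ∈ children lev k P, ((∑ i ∈ v, ((c i - a i : ℕ) : ℝ)) *
          max 0 (((fl u s t v : ℝ) - 1) / (∑ i ∈ v, ((c i - a i : ℕ) : ℝ)) - 1)) +
        ∑ v ∈ (children lev k P).filter
          (fun v => 1 * (∑ i ∈ v, ((c i - a i : ℕ) : ℝ)) + 1 ≤ (fl u s t v : ℝ)),
            ∑ i ∈ v, ((c i - a i : ℕ) : ℝ) := by
        rw [sum_add_distrib, sum_filter]
    _ ≤ S * Real.log ρ + S := add_le_add hwt hone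
    _ = (1 + Real.log ρ) * S := by ring

theorem bnd_m {lev : V → V → ℕ} (hlev : IsUlt lev) {a c : V → ℕ} (hac : ∀ i, a i < c i)
    {u s : ℕ → V} {t : ℕ} (h : ∀ r < t, OK lev c (fun _ => 1) u s r (s r)) {k : ℕ}
    {P : Finset V} (hP : P ∈ clusters lev (k + 1)) :
    ∑ v ∈ children lev k P, max 0 ((fl u s t v : ℝ) - ∑ i ∈ v, ((c i : ℝ) - a i)) ≤
      (1 + Real.log (Fintype.card V)) *
        (∑ v ∈ children lev k P, max 0 ((ld u t v : ℝ) - ∑ i ∈ v, (a i : ℝ)) + fl u s t P) := by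
  obtain ⟨S, hS⟩ : ∃ S : ℝ, S = ∑ v ∈ children lev k P,
      max 0 ((ld u t v : ℝ) - ∑ i ∈ v, (a i : ℝ)) + (fl u s t P : ℝ) := ⟨_, rfl⟩
  have hS0 : 0 ≤ S := by
    rw [hS]
    exact bnd_S0
  rw [← hS]
  have hpos : ∀ i, (1 : ℝ) ≤ (c i : ℝ) - a i := by
    intro i
    rw [← Nat.cast_sub (hac i).le]
    exact_mod_cast Nat.sub_pos_of_lt (hac i)
  have hWeq : ∀ v : Finset V, ∑ i ∈ v, ((1 : ℕ) : ℝ) = v.card := fun v => by simp
  have hW1 : ∀ v ∈ children lev k P, (1 : ℝ) ≤ ∑ i ∈ v, ((1 : ℕ) : ℝ) := by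
    intro v hv
    rw [hWeq]
    exact_mod_cast (bnd_ne hlev hv).card_pos
  have hW0 : ∀ v ∈ children lev k P, 0 < ∑ i ∈ v, ((1 : ℕ) : ℝ) := fun v hv =>
    lt_of_lt_of_le one_pos (hW1 v hv)
  have hstar := bnd_star hlev (fun i => (hac i).le) h hP hW0
  rw [← hS] at hstar
  obtain ⟨G, hG⟩ : ∃ G : Finset V → ℝ,
      G = fun v => ((fl u s t v : ℝ) - 1) / ∑ i ∈ v, ((1 : ℕ) : ℝ) := ⟨_, rfl⟩
  obtain ⟨W, hW⟩ : ∃ W : Finset V → ℝ, W = fun v => ∑ i ∈ v, ((1 : ℕ) : ℝ) := ⟨_, rfl⟩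
  have hstar' : ∀ l : ℝ, 0 < l → l * ∑ v ∈ (children lev k P).filter (fun v => l ≤ G v), W v ≤ S := by
    intro l hl
    rw [hG, hW]
    exact hstar l hl
  have hW1' : ∀ v ∈ children lev k P, 1 ≤ W v := by
    rw [hW]
    exact hW1
  have hsingle : ∀ v ∈ children lev k P, 0 < G v → G v * W v ≤ S := by
    intro v hv hgv
    refine le_trans (mul_le_mul_of_nonneg_left ?_ hgv.le) (hstar' (G v) hgv)
    refine single_le_sum (f := W) (fun i hi => ?_) (mem_filter.2 ⟨hv, le_rfl⟩)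
    have := hW1' i (mem_filter.1 hi).1
    linarith
  have hterm : ∀ v ∈ children lev k P,
      max 0 ((fl u s t v : ℝ) - ∑ i ∈ v, ((c i : ℝ) - a i)) ≤ W v * max 0 (G v) := by
    intro v hv
    have hw := hW1' v hv
    have e1 : W v * G v = (fl u s t v : ℝ) - 1 := by
      rw [hG, hW]
      exact mul_div_cancel₀ _ (hW0 v hv).ne'
    have h1 : (1 : ℝ) ≤ ∑ i ∈ v, ((c i : ℝ) - a i) := by
      obtain ⟨b, hb⟩ := bnd_ne hlev hv
      exact (hpos b).trans
        (single_le_sum (f := fun i => (c i : ℝ) - a i)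
          (fun i _ => by have := hpos i; linarith) hb)
    refine max_le (mul_nonneg (by linarith) (le_max_left _ _)) ?_
    calc (fl u s t v : ℝ) - ∑ i ∈ v, ((c i : ℝ) - a i) ≤ (fl u s t v : ℝ) - 1 := by linarith
      _ = W v * G v := e1.symm
      _ ≤ W v * max 0 (G v) := mul_le_mul_of_nonneg_left (le_max_right _ _) (by linarith)
  refine (sum_le_sum hterm).trans ?_
  have hP' := hP
  unfold clusters at hP'
  rw [mem_image] at hP'
  obtain ⟨b, -, -⟩ := hP'
  have hm1 : 1 ≤ Fintype.card V := Fintype.card_pos_iff.2 ⟨b⟩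
  have hm : (1 : ℝ) ≤ Fintype.card V := by exact_mod_cast hm1
  rcases eq_or_lt_of_le hS0 with h0 | h0
  · rw [← h0, mul_zero]
    refine sum_nonpos fun v hv => ?_
    have h1 : G v ≤ 0 := by
      by_contra hcon
      have h2 : 0 < G v := not_le.1 hcon
      have h3 := hsingle v hv h2
      have h4 : 0 < G v * W v := mul_pos h2 (by have := hW1' v hv; linarith)
      linarith
    rw [max_eq_left h1, mul_zero]
  · have hα : 0 < S / Fintype.card V := div_pos h0 (by linarith)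
    have hαβ : S / Fintype.card V ≤ S := div_le_self hS0 hm
    have hwt := weighted (children lev k P) W G
      (fun v hv => by have := hW1' v hv; linarith) S hS0 (S / Fintype.card V) S hα hαβ (by
        intro v hv
        by_cases hgv : 0 < G v
        · have h1 := hsingle v hv hgv
          have h2 : G v * 1 ≤ G v * W v := mul_le_mul_of_nonneg_left (hW1' v hv) hgv.le
          linarith
        · exact (not_lt.1 hgv).trans hS0) hstar'
    have e2 : S / (S / (Fintype.card V : ℝ)) = Fintype.card V := by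
      have : (Fintype.card V : ℝ) ≠ 0 := by linarith
      field_simp
    rw [e2] at hwt
    have hsumW : ∑ v ∈ children lev k P, W v ≤ Fintype.card V := by
      have h1 := sum_children hlev hP (fun _ => ((1 : ℕ) : ℝ))
      rw [hW, h1]
      have h2 : ∑ i ∈ P, ((1 : ℕ) : ℝ) = P.card := hWeq P
      rw [h2]
      exact_mod_cast card_le_univ P
    calc ∑ v ∈ children lev k P, W v * max 0 (G v)
        ≤ ∑ v ∈ children lev k P, (W v * (S / Fintype.card V) +
            W v * max 0 (G v - S / Fintype.card V)) := by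
          refine sum_le_sum fun v hv => ?_
          have hw := hW1' v hv
          rw [← mul_add]
          refine mul_le_mul_of_nonneg_left ?_ (by linarith)
          refine max_le (add_nonneg hα.le (le_max_left _ _)) ?_
          have := le_max_right 0 (G v - S / Fintype.card V)
          linarith
      _ = (∑ v ∈ children lev k P, W v) * (S / Fintype.card V) +
            ∑ v ∈ children lev k P, W v * max 0 (G v - S / Fintype.card V) := by
          rw [sum_add_distrib, sum_mul]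
      _ ≤ Fintype.card V * (S / Fintype.card V) + S * Real.log (Fintype.card V) :=
          add_le_add (mul_le_mul_of_nonneg_right hsumW hα.le) hwt
      _ = (1 + Real.log (Fintype.card V)) * S := by
          have : (Fintype.card V : ℝ) ≠ 0 := by linarith
          field_simp

end Pool.Agent.Helper49.UM
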