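import Pool.Agent.Helper49.UM.Step
import Pool.Agent.Helper49.UM.Bnd
import Pool.Agent.Helper49.UM.Lvl
import Pool.Agent.Helper49.UM.Scale

/-!
The online algorithm on the sites: at each time an admissible site is chosen, by recursion on the
time.  `alg` is the bound for ultrametrics, `alg1` the bound for the uniform metric.
-/

namespace Pool.Agent.Helper49.UM

open Finset Pool.Agent.Helper8.OT

variable {V : Type} [Fintype V] [DecidableEq V]

/-- Admissibility at time `t` only depends on the requests `r ≤ t` and the sites used before. -/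
private theorem ok_congr {lev : V → V → ℕ} {c ω : V → ℕ} {u u' s s' : ℕ → V} {t : ℕ}
    (hu : ∀ r ≤ t, u r = u' r) (hs : ∀ r < t, s r = s' r) {x : V}
    (h : OK lev c ω u s t x) : OK lev c ω u' s' t x := by
  have h1 : ∀ v : Finset V, ld s t v = ld s' t v := fun v => ld_congr hs v
  have h2 : ∀ v : Finset V, fl u s t v = fl u' s' t v := fun v =>
    fl_congr (fun r hr => hu r hr.le) hs v
  have h3 : u t = u' t := hu t le_rfl
  obtain ⟨hf, ho, hb⟩ := h
  refine ⟨?_, ?_, ?_⟩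
  · rw [← h1]
    exact hf
  · intro k hk
    rw [← h1, ← h3]
    rw [← h3] at hk
    exact ho k hk
  · intro k i hk hi hl
    rw [← h2, ← h2]
    rw [← h3] at hk
    rw [← h1] at hl
    exact hb k i hk hi hl

/-- The algorithm: choose an admissible site, by recursion on the time. -/
private noncomputable def alS [Nonempty V] (lev : V → V → ℕ) (c ω : V → ℕ) (u : ℕ → V)
    (t : ℕ) : V :=
  Classical.epsilon (OK lev c ω u (fun r => if _h : r < t then alS lev c ω u r else u r) t)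
termination_by t

private theorem alS_eq [Nonempty V] (lev : V → V → ℕ) (c ω : V → ℕ) (u : ℕ → V) (t : ℕ) :
    alS lev c ω u t = Classical.epsilon (OK lev c ω u (alS lev c ω u) t) := by
  rw [alS]
  congr 1
  funext x
  refine propext ⟨?_, ?_⟩
  · refine ok_congr (fun r _ => rfl) ?_
    intro r hr
    simp [hr]
  · refine ok_congr (fun r _ => rfl) ?_
    intro r hr
    simp [hr]

private theorem alS_causal [Nonempty V] (lev : V → V → ℕ) (c ω : V → ℕ) (u u' : ℕ → V) (t : ℕ)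
    (h : ∀ r ≤ t, u r = u' r) : alS lev c ω u t = alS lev c ω u' t := by
  induction t using Nat.strong_induction_on with
  | _ t ih =>
    rw [alS_eq, alS_eq]
    have hs : ∀ r < t, alS lev c ω u r = alS lev c ω u' r := fun r hr =>
      ih r hr (fun q hq => h q (hq.trans hr.le))
    congr 1
    funext x
    refine propext ⟨?_, ?_⟩
    · exact ok_congr h hs
    · exact ok_congr (fun r hr => (h r hr).symm) (fun r hr => (hs r hr).symm)

private theorem alS_ok [Nonempty V] {lev : V → V → ℕ} (hlev : IsUlt lev) (K : ℕ)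
    (hK : ∀ i j, lev i j ≤ K) (c ω : V → ℕ) (hω : ∀ i, 0 < ω i) (u : ℕ → V) (r : ℕ)
    (hr : r < ∑ i, c i) : OK lev c ω u (alS lev c ω u) r (alS lev c ω u r) := by
  induction r using Nat.strong_induction_on with
  | _ r ih =>
    have hex := exists_ok hlev K hK c ω hω u (alS lev c ω u) r
      (fun i => ok_le (fun q hq => ih q hq (hq.trans hr)) i) hr
    have h1 := Classical.epsilon_spec hex
    rw [← alS_eq] at h1
    exact h1

omit [Fintype V] [DecidableEq V] in
theorem one_le_rho' [Nonempty V] {a c : V → ℕ} (hac : ∀ i, a i < c i) {ρ : ℝ}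
    (hρ : ∀ i, (c i : ℝ) ≤ ρ * ((c i : ℝ) - a i)) : 1 ≤ ρ := by
  obtain ⟨i⟩ := ‹Nonempty V›
  have h1 : (a i : ℝ) < c i := by exact_mod_cast hac i
  have h2 : (0 : ℝ) ≤ a i := Nat.cast_nonneg _
  by_contra hlt
  push Not at hlt
  have h3 : ρ * ((c i : ℝ) - a i) < 1 * ((c i : ℝ) - a i) :=
    mul_lt_mul_of_pos_right hlt (by linarith)
  have h4 := hρ i
  linarith

omit [DecidableEq V] in
theorem log_nonneg_min [Nonempty V] {ρ : ℝ} (h1 : 1 ≤ ρ) :
    0 ≤ Real.log (min (Fintype.card V) ρ) := by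
  refine Real.log_nonneg (le_min ?_ h1)
  exact_mod_cast (Fintype.card_pos : 0 < Fintype.card V)

theorem core [Nonempty V] {lev : V → V → ℕ} (hlev : IsUlt lev) (K : ℕ)
    (hK : ∀ i j, lev i j ≤ K) (δ : ℕ → ℝ) (hδz : δ 0 = 0) (hδ0 : ∀ k, 0 ≤ δ k)
    (a c : V → ℕ) (hac : ∀ i, a i < c i) (ρ : ℝ) (hρ : ∀ i, (c i : ℝ) ≤ ρ * ((c i : ℝ) - a i))
    (hδ : ∀ k, 1 ≤ k → 2 * (2 + Real.log (min (Fintype.card V) ρ)) * δ k ≤ δ (k + 1)) :
    ∃ S : (ℕ → V) → ℕ → V, (∀ u u' t, (∀ r ≤ t, u r = u' r) → S u t = S u' t) ∧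
      ∀ u n, n ≤ ∑ i, a i →
        (∀ i, ((range n).filter (fun r => S u r = i)).card ≤ c i) ∧
        ∀ σ : ℕ → V, (∀ i, ((range n).filter (fun r => σ r = i)).card ≤ a i) →
          ∑ r ∈ range n, δ (lev (u r) (S u r)) ≤
            4 * (2 + Real.log (min (Fintype.card V) ρ)) *
              ∑ r ∈ range n, δ (lev (u r) (σ r)) := by
  have hρ1 : 1 ≤ ρ := one_le_rho' hac hρ
  have hlog : 0 ≤ Real.log (min (Fintype.card V) ρ) := log_nonneg_min hρ1
  obtain ⟨ω, hω, hB⟩ : ∃ ω : V → ℕ, (∀ i, 0 < ω i) ∧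
      ∀ (u s : ℕ → V) (n : ℕ), (∀ r < n, OK lev c ω u s r (s r)) →
        ∀ k, ∀ P ∈ clusters lev (k + 1),
        ∑ v ∈ children lev k P, max 0 ((fl u s n v : ℝ) - ∑ i ∈ v, ((c i : ℝ) - a i)) ≤
          (1 + Real.log (min (Fintype.card V) ρ)) *
            (∑ v ∈ children lev k P, max 0 ((ld u n v : ℝ) - ∑ i ∈ v, (a i : ℝ)) +
              fl u s n P) := by
    rcases le_total ρ (Fintype.card V) with hle | hle
    · refine ⟨fun i => c i - a i, fun i => Nat.sub_pos_of_lt (hac i), ?_⟩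
      intro u s n h k P hP
      rw [min_eq_right hle]
      exact bnd_e hlev hac ρ hρ h hP
    · refine ⟨fun _ => 1, fun i => Nat.one_pos, ?_⟩
      intro u s n h k P hP
      rw [min_eq_left hle]
      exact bnd_m hlev hac h hP
  have hasum : ∑ i, a i ≤ ∑ i, c i := sum_le_sum (fun i _ => (hac i).le)
  refine ⟨alS lev c ω, fun u u' t h => alS_causal lev c ω u u' t h, ?_⟩
  intro u n hn
  have hok : ∀ r < n, OK lev c ω u (alS lev c ω u) r (alS lev c ω u r) := fun r hr =>
    alS_ok hlev K hK c ω hω u r (hr.trans_le (hn.trans hasum))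
  constructor
  · intro i
    have h1 := ok_le hok i
    unfold ld at h1
    simpa only [mem_singleton] using h1
  · intro σ hσ
    have h1 := cost hlev K hK δ hδz hδ0 (1 + Real.log (min (Fintype.card V) ρ)) (by linarith)
      (by
        intro k hk
        have := hδ k hk
        calc 2 * (1 + (1 + Real.log (min (Fintype.card V) ρ))) * δ k
            = 2 * (2 + Real.log (min (Fintype.card V) ρ)) * δ k := by ring
          _ ≤ _ := this)
      (fun i => (hac i).le) hok (hB u (alS lev c ω u) n hok) σ hσ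
    calc _ ≤ _ := h1
      _ = _ := by ring

/-- The algorithm for a finite ultrametric space of sites whose requests are sites. -/
theorem alg [Nonempty V] (U : V → V → ℝ) (h0 : ∀ i, U i i = 0) (hpos : ∀ i j, i ≠ j → 0 < U i j)
    (hsymm : ∀ i j, U i j = U j i) (hult : ∀ i j k, U i k ≤ max (U i j) (U j k))
    (a c : V → ℕ) (hac : ∀ i, a i < c i) (ρ : ℝ) (hρ : ∀ i, (c i : ℝ) ≤ ρ * ((c i : ℝ) - a i)) :
    ∃ S : (ℕ → V) → ℕ → V, (∀ u u' t, (∀ r ≤ t, u r = u' r) → S u t = S u' t) ∧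
      ∀ u n, n ≤ ∑ i, a i →
        (∀ i, ((range n).filter (fun r => S u r = i)).card ≤ c i) ∧
        ∀ σ : ℕ → V, (∀ i, ((range n).filter (fun r => σ r = i)).card ≤ a i) →
          ∑ r ∈ range n, U (u r) (S u r) ≤
            8 * (2 + Real.log (min (Fintype.card V) ρ)) ^ 2 * ∑ r ∈ range n, U (u r) (σ r) := by
  have hρ1 : 1 ≤ ρ := one_le_rho' hac hρ
  have hlog : 0 ≤ Real.log (min (Fintype.card V) ρ) := log_nonneg_min hρ1
  set H : ℝ := 2 + Real.log (min (Fintype.card V) ρ) with hH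
  have hH2 : 2 ≤ H := by rw [hH]; linarith
  obtain ⟨lev, K, δ, hlev, hK, hδz, hδ0, hδ, hU⟩ :=
    scale U h0 hpos hsymm hult (2 * H) (by linarith)
  obtain ⟨S, hS1, hS2⟩ := core hlev K hK δ hδz hδ0 a c hac ρ hρ hδ
  refine ⟨S, hS1, ?_⟩
  intro u n hn
  obtain ⟨h1, h2⟩ := hS2 u n hn
  refine ⟨h1, ?_⟩
  intro σ hσ
  have h3 := h2 σ hσ
  rw [← hH] at h3
  have h4 : ∑ r ∈ range n, U (u r) (S u r) ≤ ∑ r ∈ range n, δ (lev (u r) (S u r)) :=
    sum_le_sum (fun r _ => (hU (u r) (S u r)).1)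
  have h5 : ∑ r ∈ range n, δ (lev (u r) (σ r)) ≤ 2 * H * ∑ r ∈ range n, U (u r) (σ r) := by
    rw [mul_sum]
    exact sum_le_sum (fun r _ => (hU (u r) (σ r)).2)
  calc ∑ r ∈ range n, U (u r) (S u r) ≤ _ := h4
    _ ≤ _ := h3
    _ ≤ 4 * H * (2 * H * ∑ r ∈ range n, U (u r) (σ r)) :=
        mul_le_mul_of_nonneg_left h5 (by linarith)
    _ = 8 * H ^ 2 * ∑ r ∈ range n, U (u r) (σ r) := by ring

private def lev1 (i j : V) : ℕ := if i = j then 0 else 1

omit [Fintype V] in
private theorem lev1_ult : IsUlt (lev1 : V → V → ℕ) := by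
  refine ⟨?_, ?_, ?_⟩
  · intro i j
    unfold lev1
    split_ifs with h
    · simp [h]
    · simp [h]
  · intro i j
    unfold lev1
    by_cases h : i = j
    · simp [h]
    · rw [if_neg h, if_neg (Ne.symm h)]
  · intro i j k
    unfold lev1
    by_cases h1 : i = j
    · subst h1
      simp
    · rw [if_neg h1]
      split_ifs <;> simp

/-- The algorithm for the uniform metric. -/
theorem alg1 [Nonempty V] (a c : V → ℕ) (hac : ∀ i, a i < c i) (ρ : ℝ)
    (hρ : ∀ i, (c i : ℝ) ≤ ρ * ((c i : ℝ) - a i)) :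
    ∃ S : (ℕ → V) → ℕ → V, (∀ u u' t, (∀ r ≤ t, u r = u' r) → S u t = S u' t) ∧
      ∀ u n, n ≤ ∑ i, a i →
        (∀ i, ((range n).filter (fun r => S u r = i)).card ≤ c i) ∧
        ∀ σ : ℕ → V, (∀ i, ((range n).filter (fun r => σ r = i)).card ≤ a i) →
          ((range n).filter (fun r => u r ≠ S u r)).card ≤
            4 * (2 + Real.log (min (Fintype.card V) ρ)) *
              ((range n).filter (fun r => u r ≠ σ r)).card := by
  have hρ1 : 1 ≤ ρ := one_le_rho' hac hρ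
  have hlog : 0 ≤ Real.log (min (Fintype.card V) ρ) := log_nonneg_min hρ1
  obtain ⟨δ, hδz, hδ1, hδ0, hδ⟩ : ∃ δ : ℕ → ℝ, δ 0 = 0 ∧ δ 1 = 1 ∧ (∀ k, 0 ≤ δ k) ∧
      ∀ k, 1 ≤ k → 2 * (2 + Real.log (min (Fintype.card V) ρ)) * δ k ≤ δ (k + 1) := by
    refine ⟨fun k => if k = 0 then 0 else
      (2 * (2 + Real.log (min (Fintype.card V) ρ))) ^ (k - 1), ?_, ?_, ?_, ?_⟩
    · simp
    · simp
    · intro k
      dsimp only
      split_ifs
      · exact le_rfl
      · positivity
    · intro k hk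
      have hk0 : k ≠ 0 := by omega
      dsimp only
      rw [if_neg hk0, if_neg (Nat.succ_ne_zero k), Nat.add_sub_cancel, ← pow_succ',
        Nat.sub_add_cancel hk]
  obtain ⟨S, hS1, hS2⟩ := core (lev1_ult (V := V)) 1 (by
    intro i j
    unfold lev1
    split_ifs <;> simp) δ hδz hδ0 a c hac ρ hρ hδ
  refine ⟨S, hS1, ?_⟩
  have hkey : ∀ (u s : ℕ → V) (n : ℕ), ∑ r ∈ range n, δ (lev1 (u r) (s r)) =
      (((range n).filter (fun r => u r ≠ s r)).card : ℝ) := by
    intro u s n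
    rw [card_filter, Nat.cast_sum]
    refine sum_congr rfl ?_
    intro r _
    unfold lev1
    by_cases h : u r = s r
    · simp [h, hδz]
    · simp [h, hδ1]
  intro u n hn
  obtain ⟨h1, h2⟩ := hS2 u n hn
  refine ⟨h1, ?_⟩
  intro σ hσ
  have h3 := h2 σ hσ
  rw [hkey, hkey] at h3
  exact h3

end Pool.Agent.Helper49.UM
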