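import Pool.Agent.Helper49.UM.Defs

/-!
PROJECT UM, counting lemmas.
-/

namespace Pool.Agent.Helper49.UM

open Finset Pool.Agent.Helper8.OT

variable {V : Type} [DecidableEq V]

theorem ld_succ (s : ℕ → V) (t : ℕ) (v : Finset V) :
    ld s (t + 1) v = ld s t v + if s t ∈ v then 1 else 0 := by
  unfold ld
  rw [range_add_one, filter_insert]
  split_ifs with h
  · rw [card_insert_of_notMem (by simp)]
  · rw [add_zero]

theorem fl_succ (u s : ℕ → V) (t : ℕ) (v : Finset V) :
    fl u s (t + 1) v = fl u s t v + if u t ∉ v ∧ s t ∈ v then 1 else 0 := by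
  unfold fl
  rw [range_add_one, filter_insert]
  split_ifs with h
  · rw [card_insert_of_notMem (by simp)]
  · rw [add_zero]

theorem ou_succ (u s : ℕ → V) (t : ℕ) (v : Finset V) :
    ou u s (t + 1) v = ou u s t v + if u t ∈ v ∧ s t ∉ v then 1 else 0 := by
  unfold ou
  rw [range_add_one, filter_insert]
  split_ifs with h
  · rw [card_insert_of_notMem (by simp)]
  · rw [add_zero]

@[simp] theorem ld_zero (s : ℕ → V) (v : Finset V) : ld s 0 v = 0 := by simp [ld]
@[simp] theorem fl_zero (u s : ℕ → V) (v : Finset V) : fl u s 0 v = 0 := by simp [fl]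
@[simp] theorem ou_zero (u s : ℕ → V) (v : Finset V) : ou u s 0 v = 0 := by simp [ou]

theorem ld_le_succ (s : ℕ → V) (t : ℕ) (v : Finset V) : ld s t v ≤ ld s (t + 1) v := by
  rw [ld_succ]
  exact Nat.le_add_right _ _

theorem fl_le_succ (u s : ℕ → V) (t : ℕ) (v : Finset V) : fl u s t v ≤ fl u s (t + 1) v := by
  rw [fl_succ]
  exact Nat.le_add_right _ _

theorem ld_add_ou (u s : ℕ → V) (t : ℕ) (v : Finset V) :
    ld s t v + ou u s t v = ld u t v + fl u s t v := by
  induction t with
  | zero => simp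
  | succ t ih =>
    rw [ld_succ, ou_succ, ld_succ, fl_succ]
    by_cases h1 : u t ∈ v <;> by_cases h2 : s t ∈ v <;> simp [h1, h2] <;> omega

theorem ld_sum (s : ℕ → V) (t : ℕ) (v : Finset V) : ld s t v = ∑ i ∈ v, ld s t {i} := by
  induction t with
  | zero => simp
  | succ t ih =>
    simp only [ld_succ, sum_add_distrib, ← ih, mem_singleton]
    rw [sum_ite_eq v (s t) (fun _ => 1)]

theorem ld_congr {s s' : ℕ → V} {t : ℕ} (h : ∀ r < t, s r = s' r) (v : Finset V) :
    ld s t v = ld s' t v := by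
  unfold ld
  congr 1
  refine filter_congr ?_
  intro r hr
  rw [h r (mem_range.mp hr)]

theorem fl_congr {u u' s s' : ℕ → V} {t : ℕ} (hu : ∀ r < t, u r = u' r)
    (h : ∀ r < t, s r = s' r) (v : Finset V) : fl u s t v = fl u' s' t v := by
  unfold fl
  congr 1
  refine filter_congr ?_
  intro r hr
  rw [h r (mem_range.mp hr), hu r (mem_range.mp hr)]

theorem fl_le_ld (u s : ℕ → V) (t : ℕ) (v : Finset V) : fl u s t v ≤ ld s t v := by
  unfold fl ld
  refine card_le_card ?_
  intro r hr
  rw [mem_filter] at hr ⊢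
  exact ⟨hr.1, hr.2.2⟩

end Pool.Agent.Helper49.UM
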