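import Pool.Agent.Helper8.OT.Ult
import Pool.Agent.Helper84.TransportDefs

/-!
Definitions for the upper bounds on nearly ultrametric spaces (problem MP_ed2ca9_lc).

`u : ℕ → V` is the sequence of requests, `s : ℕ → V` the sequence of the sites that serve them
(both are sites), `lev` an ultrametric on the sites with values in `ℕ`, `a` / `c` the capacities of
the offline / online algorithm, `ω` positive weights of the sites.
-/

namespace Pool.Agent.Helper49.UM

open Finset Pool.Agent.Helper8.OT

variable {V : Type} [Fintype V] [DecidableEq V]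

/-- The number of `r < t` with `s r ∈ v`.  (`ld s` is the load, `ld u` the number of requests.) -/
def ld (s : ℕ → V) (t : ℕ) (v : Finset V) : ℕ := ((range t).filter (fun r => s r ∈ v)).card

/-- The number of `r < t` that are served in `v` and come from outside. -/
def fl (u s : ℕ → V) (t : ℕ) (v : Finset V) : ℕ :=
  ((range t).filter (fun r => u r ∉ v ∧ s r ∈ v)).card

/-- The number of `r < t` that come from `v` and are served outside. -/
def ou (u s : ℕ → V) (t : ℕ) (v : Finset V) : ℕ :=
  ((range t).filter (fun r => u r ∈ v ∧ s r ∉ v)).card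

/-- The site `x` is admissible for the request number `t`. -/
structure OK (lev : V → V → ℕ) (c ω : V → ℕ) (u s : ℕ → V) (t : ℕ) (x : V) : Prop where
  free : ld s t {x} < c x
  own : ∀ k, x ∉ cl lev k (u t) → ld s t (cl lev k (u t)) = ∑ i ∈ cl lev k (u t), c i
  bal : ∀ k i, u t ∉ cl lev k x → lev i x ≤ k + 1 →
    ld s t (cl lev k i) < ∑ j ∈ cl lev k i, c j →
    fl u s t (cl lev k x) * ∑ j ∈ cl lev k i, ω j ≤ fl u s t (cl lev k i) * ∑ j ∈ cl lev k x, ω j

end Pool.Agent.Helper49.UM
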