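import Pool.Agent.Helper84.TransportDefs

/-!
Online transportation restricted to a class of metric spaces (problem MP_ed2ca9_lc).
-/

namespace Pool.Agent.Helper49.UM

open Pool.Agent.Helper84.Transport
open scoped ENNReal

/-- The optimal weak competitive ratio when only the metric spaces of the class `C` are allowed as
instances: the infimum over all deterministic online algorithms `A` of the supremum of
`A(I) / OPT_a(I)` over all instances `I` whose metric space satisfies `C`. -/
noncomputable def RstarOn {m : ℕ} (C : ∀ N : Type, MetricSpace N → Prop) (a c : Fin m → ℕ) :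
    ℝ≥0∞ :=
  ⨅ A : OnlineAlgorithm m a c, ⨆ (N : Type) (inst : MetricSpace N) (_ : C N inst) (s : Fin m → N)
    (_ : Function.Injective s) (r : ℕ → N) (n : ℕ) (_ : n ≤ ∑ i, a i),
      A.cost s r n / opt a s r n

/-- The metric space `N` is at distortion at most `D` from an ultrametric `U` whose different
positive values are separated by a factor at least `σ`. (For `σ ≤ 1` the last condition is empty.) -/
def NearUlt (D σ : ℝ) (N : Type) (_inst : MetricSpace N) : Prop :=
  ∃ U : N → N → ℝ, (∀ x y, U x y = U y x) ∧ (∀ x y z, U x z ≤ max (U x y) (U y z)) ∧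
    (∀ x y, dist x y ≤ U x y ∧ U x y ≤ D * dist x y) ∧
    ∀ x y x' y', 0 < U x y → U x y < U x' y' → σ * U x y ≤ U x' y'

end Pool.Agent.Helper49.UM
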