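import Pool.Agent.Helper49.UM.Alg

/-!
PROJECT UM: ultrametrics with separated values.
-/

namespace Pool.Agent.Helper49.UM

open Finset Pool.Agent.Helper8.OT

variable {V : Type} [Fintype V] [DecidableEq V]

/-- The levels of an ultrametric whose values are separated by the factor `lam`. -/
private theorem rank (U : V → V → ℝ) (h0 : ∀ i, U i i = 0) (hpos : ∀ i j, i ≠ j → 0 < U i j)
    (hsymm : ∀ i j, U i j = U j i) (hult : ∀ i j k, U i k ≤ max (U i j) (U j k))
    (lam : ℝ) (hlam : 1 ≤ lam)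
    (hsep : ∀ i j k l, 0 < U i j → U i j < U k l → lam * U i j ≤ U k l) :
    ∃ (lev : V → V → ℕ) (K : ℕ) (δ : ℕ → ℝ), IsUlt lev ∧ (∀ i j, lev i j ≤ K) ∧ δ 0 = 0 ∧
      (∀ k, 0 ≤ δ k) ∧ (∀ k, 1 ≤ k → lam * δ k ≤ δ (k + 1)) ∧
      ∀ i j, δ (lev i j) = U i j := by
  classical
  set W : Finset ℝ := (univ.image fun p : V × V => U p.1 p.2).filter (fun x => 0 < x) with hW
  have hWm : ∀ x, x ∈ W ↔ (∃ i j, U i j = x) ∧ 0 < x := by
    intro x
    simp [hW]
  set e : Fin W.card ↪o ℝ := W.orderEmbOfFin rfl with he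
  have heW : ∀ q, e q ∈ W := fun q => W.orderEmbOfFin_mem rfl q
  have hepos : ∀ q, 0 < e q := fun q => ((hWm _).1 (heW q)).2
  have hesep : ∀ q q', q < q' → lam * e q ≤ e q' := by
    intro q q' hq
    obtain ⟨⟨i, j, hij⟩, h1⟩ := (hWm _).1 (heW q)
    obtain ⟨⟨k, l, hkl⟩, h2⟩ := (hWm _).1 (heW q')
    have h3 : e q < e q' := e.strictMono hq
    rw [← hij] at h1 h3 ⊢
    rw [← hkl] at h3 ⊢
    exact hsep i j k l h1 h3
  set M : ℝ := 1 + ∑ q, e q with hM
  have heM : ∀ q, e q ≤ M := by
    intro q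
    have := Finset.single_le_sum (f := fun q => e q) (fun q _ => (hepos q).le) (mem_univ q)
    linarith
  have hM1 : 1 ≤ M := by
    have : 0 ≤ ∑ q, e q := Finset.sum_nonneg fun q _ => (hepos q).le
    linarith
  set δ : ℕ → ℝ := fun k => if k = 0 then 0 else
    if h : k - 1 < W.card then e ⟨k - 1, h⟩ else M * lam ^ k with hδ
  have hlam0 : 0 ≤ lam := by linarith
  have hδs : ∀ k, δ (k + 1) = if h : k < W.card then e ⟨k, h⟩ else M * lam ^ (k + 1) := by
    intro k
    simp only [hδ, Nat.add_sub_cancel, Nat.succ_ne_zero, if_false, Nat.add_eq_zero_iff,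
      one_ne_zero, and_false]
  refine ⟨fun i j => (W.filter (fun x => x ≤ U i j)).card, W.card, δ, ?_, ?_, ?_, ?_, ?_, ?_⟩
  · refine ⟨?_, ?_, ?_⟩
    · intro i j
      rw [card_eq_zero, filter_eq_empty_iff]
      constructor
      · intro h
        by_contra hij
        exact h ((hWm _).2 ⟨⟨i, j, rfl⟩, hpos i j hij⟩) le_rfl
      · rintro rfl x hx hx'
        rw [h0] at hx'
        exact absurd ((hWm _).1 hx).2 (not_lt.2 hx')
    · intro i j
      simp only [hsymm i j]
    · intro i j k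
      rcases le_max_iff.1 (hult i j k) with h | h
      · refine le_max_of_le_left (card_le_card ?_)
        intro x hx
        rw [mem_filter] at hx ⊢
        exact ⟨hx.1, hx.2.trans h⟩
      · refine le_max_of_le_right (card_le_card ?_)
        intro x hx
        rw [mem_filter] at hx ⊢
        exact ⟨hx.1, hx.2.trans h⟩
  · intro i j
    exact card_le_card (filter_subset _ _)
  · simp [hδ]
  · intro k
    rcases k with _ | k
    · simp [hδ]
    · rw [hδs]
      split_ifs with h
      · exact (hepos _).le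
      · positivity
  · intro k hk
    obtain ⟨k, rfl⟩ : ∃ k', k = k' + 1 := ⟨k - 1, by omega⟩
    rw [hδs, hδs]
    split_ifs with h1 h2 h2
    · refine hesep _ _ ?_
      rw [Fin.lt_def]
      exact Nat.lt_succ_self k
    · have h3 := heM ⟨k, h1⟩
      have h4 : (1 : ℝ) ≤ lam ^ (k + 1) := one_le_pow₀ hlam
      calc lam * e ⟨k, h1⟩ ≤ lam * M := mul_le_mul_of_nonneg_left h3 hlam0
        _ = lam * M * 1 := by ring
        _ ≤ lam * M * lam ^ (k + 1) := mul_le_mul_of_nonneg_left h4 (by positivity)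
        _ = M * lam ^ (k + 1 + 1) := by ring
    · omega
    · refine le_of_eq ?_
      ring
  · intro i j
    change δ (W.filter (fun x => x ≤ U i j)).card = U i j
    by_cases hij : i = j
    · subst hij
      have h1 : (W.filter (fun x => x ≤ U i i)).card = 0 := by
        rw [card_eq_zero, filter_eq_empty_iff]
        intro x hx hx'
        rw [h0] at hx'
        exact absurd ((hWm _).1 hx).2 (not_lt.2 hx')
      rw [h1, h0]
      simp [hδ]
    · have h1 : U i j ∈ W := (hWm _).2 ⟨⟨i, j, rfl⟩, hpos i j hij⟩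
      have h2 : U i j ∈ Set.range e := by
        rw [he, range_orderEmbOfFin]
        exact h1
      obtain ⟨q, hq⟩ := h2
      have h3 : W.filter (fun x => x ≤ U i j) = (Iic q).image e := by
        ext x
        rw [mem_filter, mem_image]
        constructor
        · rintro ⟨hx, hx'⟩
          have h4 : x ∈ Set.range e := by
            rw [he, range_orderEmbOfFin]
            exact hx
          obtain ⟨q', hq'⟩ := h4
          refine ⟨q', ?_, hq'⟩
          rw [mem_Iic]
          rw [← hq', ← hq] at hx'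
          exact e.le_iff_le.1 hx'
        · rintro ⟨q', hq', rfl⟩
          rw [mem_Iic] at hq'
          refine ⟨heW q', ?_⟩
          rw [← hq]
          exact e.le_iff_le.2 hq'
      rw [h3, card_image_of_injective _ e.injective, Fin.card_Iic, hδs, dif_pos q.2, ← hq]

/-- The algorithm for a finite ultrametric space of sites with separated values. -/
theorem algSep [Nonempty V] (U : V → V → ℝ) (h0 : ∀ i, U i i = 0)
    (hpos : ∀ i j, i ≠ j → 0 < U i j)
    (hsymm : ∀ i j, U i j = U j i) (hult : ∀ i j k, U i k ≤ max (U i j) (U j k))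
    (a c : V → ℕ) (hac : ∀ i, a i < c i) (ρ : ℝ) (hρ : ∀ i, (c i : ℝ) ≤ ρ * ((c i : ℝ) - a i))
    (hsep : ∀ i j k l, 0 < U i j → U i j < U k l →
      2 * (2 + Real.log (min (Fintype.card V) ρ)) * U i j ≤ U k l) :
    ∃ S : (ℕ → V) → ℕ → V, (∀ u u' t, (∀ r ≤ t, u r = u' r) → S u t = S u' t) ∧
      ∀ u n, n ≤ ∑ i, a i →
        (∀ i, ((range n).filter (fun r => S u r = i)).card ≤ c i) ∧
        ∀ σ : ℕ → V, (∀ i, ((range n).filter (fun r => σ r = i)).card ≤ a i) →
          ∑ r ∈ range n, U (u r) (S u r) ≤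
            4 * (2 + Real.log (min (Fintype.card V) ρ)) * ∑ r ∈ range n, U (u r) (σ r) := by
  have hlog : 0 ≤ Real.log (min (Fintype.card V) ρ) := log_nonneg_min (one_le_rho' hac hρ)
  obtain ⟨lev, K, δ, hlev, hK, hδz, hδ0, hδ, hU⟩ := rank U h0 hpos hsymm hult
    (2 * (2 + Real.log (min (Fintype.card V) ρ))) (by linarith) hsep
  obtain ⟨S, hS1, hS2⟩ := core hlev K hK δ hδz hδ0 a c hac ρ hρ hδ
  refine ⟨S, hS1, fun u n hn => ?_⟩
  obtain ⟨h1, h2⟩ := hS2 u n hn
  refine ⟨h1, fun σ hσ => ?_⟩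
  have h3 := h2 σ hσ
  simpa only [hU] using h3

end Pool.Agent.Helper49.UM
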