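import Pool.Agent.Helper49.UM.Cnt

/-!
PROJECT UM, module UM-Step: existence of an admissible site.

PLAN.  Write `C v = ∑ i ∈ v, c i`.  A set `v` is *open* if `ld s t v < C v`.
(1) `descend`: for all `k` and all `i` with `cl lev k i` open there is `x ∈ cl lev k i` with
`ld s t {x} < c x` and, for all `k' < k` and all `j` with `lev j x ≤ k' + 1` and `cl lev k' j` open,
`fl u s t (cl lev k' x) * ω(cl lev k' j) ≤ fl u s t (cl lev k' j) * ω(cl lev k' x)`.
Induction on `k`.  `k = 0`: `cl lev 0 i = {i}` (`cl_zero`), take `x = i`.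
`k + 1`: `P = cl lev (k+1) i` is open; the points `j ∈ P` with `cl lev k j` open exist: otherwise
`C (cl lev k j) ≤ ld s t (cl lev k j)` for all `j ∈ P`; summing over `children lev k P`
(`sum_children` is for real functions; cast; `ld_sum`) gives `C P ≤ ld s t P`.
Take such a `j₀` minimizing `(fl u s t (cl lev k j) : ℚ) / ω(cl lev k j)` (`exists_min_image`), and
apply the induction hypothesis to `cl lev k j₀`: get `x ∈ cl lev k j₀`, so
`cl lev k x = cl lev k j₀` (`cl_eq`) and `x ∈ P`, `cl lev (k+1) x = P`.  For `k' = k` and `j` with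
`lev j x ≤ k + 1` (so `j ∈ P`, symmetry of `lev`) the inequality is the minimality
(`div_le_div_iff`, the weights are positive), for `k' < k` it is the induction hypothesis.
(2) Let `k₀` be the least `k` with `cl lev k (u t)` open (`Nat.find`; `cl lev K (u t) = univ` is open,
as `ld s t univ = t < ∑ i, c i`).  Take `x` from (1) for `cl lev k₀ (u t)`.
`own`: if `x ∉ cl lev k (u t)` then `k < k₀` (as `x ∈ cl lev k₀ (u t)`, `cl_mono`), so the cluster is
not open, and `ld s t v ≤ C v` for all `v` (`ld_sum`, hypothesis `hc`).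
`bal`: if `u t ∉ cl lev k x` then `k < k₀` (`x ∈ cl lev k₀ (u t)` means `lev (u t) x ≤ k₀`), so (1)
applies.
-/

namespace Pool.Agent.Helper49.UM

open Finset Pool.Agent.Helper8.OT

variable {V : Type} [Fintype V] [DecidableEq V]

private theorem descend {lev : V → V → ℕ} (hlev : IsUlt lev) (c ω : V → ℕ) (hω : ∀ i, 0 < ω i)
    (u s : ℕ → V) (t : ℕ) : ∀ k i, ld s t (cl lev k i) < ∑ j ∈ cl lev k i, c j →
    ∃ x ∈ cl lev k i, ld s t {x} < c x ∧ ∀ k' < k, ∀ j, lev j x ≤ k' + 1 →
      ld s t (cl lev k' j) < ∑ l ∈ cl lev k' j, c l →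
      fl u s t (cl lev k' x) * ∑ l ∈ cl lev k' j, ω l ≤
        fl u s t (cl lev k' j) * ∑ l ∈ cl lev k' x, ω l := by
  intro k
  induction k with
  | zero =>
    intro i hi
    rw [cl_zero hlev, sum_singleton] at hi
    refine ⟨i, self_mem_cl hlev 0 i, hi, fun k' hk' => absurd hk' (Nat.not_lt_zero k')⟩
  | succ k ih =>
    intro i hi
    have hex : ∃ j ∈ cl lev (k + 1) i, ld s t (cl lev k j) < ∑ l ∈ cl lev k j, c l := by
      by_contra hcon
      push Not at hcon
      have h1 : ∀ v ∈ children lev k (cl lev (k + 1) i),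
          ∑ l ∈ v, (c l : ℝ) ≤ ∑ l ∈ v, (ld s t {l} : ℝ) := by
        intro v hv
        unfold children at hv
        rw [mem_image] at hv
        obtain ⟨j, hj, hjv⟩ := hv
        have h2 := hcon j hj
        rw [hjv, ld_sum] at h2
        exact_mod_cast h2
      have h3 := sum_le_sum h1
      rw [sum_children hlev (cl_mem_clusters lev (k + 1) i),
        sum_children hlev (cl_mem_clusters lev (k + 1) i)] at h3
      have h4 : ∑ l ∈ cl lev (k + 1) i, c l ≤ ∑ l ∈ cl lev (k + 1) i, ld s t {l} := by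
        exact_mod_cast h3
      rw [← ld_sum] at h4
      exact absurd hi (not_lt.2 h4)
    have hω' : ∀ j, (0 : ℚ) < ((∑ l ∈ cl lev k j, ω l : ℕ) : ℚ) := by
      intro j
      have : 0 < ∑ l ∈ cl lev k j, ω l :=
        sum_pos (fun l _ => hω l) ⟨j, self_mem_cl hlev k j⟩
      exact_mod_cast this
    obtain ⟨j1, hj1, hj1'⟩ := hex
    have hne : ((cl lev (k + 1) i).filter
        (fun j => ld s t (cl lev k j) < ∑ l ∈ cl lev k j, c l)).Nonempty :=
      ⟨j1, mem_filter.2 ⟨hj1, hj1'⟩⟩
    obtain ⟨j0, hj0, hmin⟩ := exists_min_image _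
      (fun j => (fl u s t (cl lev k j) : ℚ) / ((∑ l ∈ cl lev k j, ω l : ℕ) : ℚ)) hne
    rw [mem_filter] at hj0
    obtain ⟨x, hx, hfree, hbal⟩ := ih j0 hj0.2
    have hxj : cl lev k x = cl lev k j0 := cl_eq hlev hx
    have hP : cl lev (k + 1) j0 = cl lev (k + 1) i := cl_eq hlev hj0.1
    have hxP : x ∈ cl lev (k + 1) i := by
      rw [← hP]
      exact cl_mono (Nat.le_succ k) j0 hx
    refine ⟨x, hxP, hfree, fun k' hk' j hj hopen => ?_⟩
    rcases Nat.lt_succ_iff_lt_or_eq.1 hk' with h | h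
    · exact hbal k' h j hj hopen
    · subst h
      have hjP : j ∈ cl lev (k' + 1) i := by
        rw [← cl_eq hlev hxP, mem_cl, hlev.symm]
        exact hj
      have h5 := hmin j (mem_filter.2 ⟨hjP, hopen⟩)
      rw [div_le_div_iff₀ (hω' j0) (hω' j)] at h5
      rw [hxj]
      exact_mod_cast h5

theorem exists_ok {lev : V → V → ℕ} (hlev : IsUlt lev) (K : ℕ)
    (hK : ∀ i j, lev i j ≤ K) (c ω : V → ℕ) (hω : ∀ i, 0 < ω i) (u s : ℕ → V) (t : ℕ)
    (hc : ∀ i, ld s t {i} ≤ c i) (ht : t < ∑ i, c i) :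
    ∃ x, OK lev c ω u s t x := by
  have hle : ∀ v : Finset V, ld s t v ≤ ∑ i ∈ v, c i := by
    intro v
    rw [ld_sum]
    exact sum_le_sum fun i _ => hc i
  have hex : ∃ k, ld s t (cl lev k (u t)) < ∑ j ∈ cl lev k (u t), c j := by
    refine ⟨K, ?_⟩
    have h1 : cl lev K (u t) = univ := by
      ext x
      rw [mem_cl]
      exact ⟨fun _ => mem_univ x, fun _ => hK _ _⟩
    have h2 : ld s t univ = t := by
      unfold ld
      simp
    rw [h1, h2]
    exact ht
  classical
  have hk0 := Nat.find_spec hex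
  obtain ⟨x, hx, hfree, hbal⟩ := descend hlev c ω hω u s t (Nat.find hex) (u t) hk0
  refine ⟨x, hfree, fun k hk => ?_, fun k i hk hi hopen => ?_⟩
  · have h1 : k < Nat.find hex := by
      by_contra hcon
      exact hk (cl_mono (not_lt.1 hcon) (u t) hx)
    exact le_antisymm (hle _) (not_lt.1 (Nat.find_min hex h1))
  · have h1 : k < Nat.find hex := by
      by_contra hcon
      apply hk
      rw [mem_cl, hlev.symm]
      exact (mem_cl.1 hx).trans (not_lt.1 hcon)
    exact hbal k h1 i hi hopen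

end Pool.Agent.Helper49.UM
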